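import Mathlib
import Pool.Agent.TH118.SG.Group

/-!
# Pairs of operators compatible with all equivariant maps of all degrees
-/

set_option linter.unusedSectionVars false

namespace Pool.Agent.TH118.ZC

open Module Finset Function Pool.Agent.TH125.Gal Pool.Agent.TH118.IS Pool.Agent.TH118.SG

variable {K : Type} [Field K] [CharZero K] [IsAlgClosed K] {T : Type} [AddCommGroup T]
  [Module K T] [FiniteDimensional K T] {E : Type} [AddCommGroup E] [Module K E]
  [FiniteDimensional K E] {S : Type} [Fintype S] [DecidableEq S] {G : Type} [Group G]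
  {B : T →ₗ[K] T →ₗ[K] K} {ρ : G →* (T →ₗ[K] T)} {σ : G →* (E →ₗ[K] E)} {χ : G →* K}

/-- double sums -/
theorem comp_comp {Y Z : End K T} {Y' : End K E} {h : MultilinearMap K (fun _ : S => T) E}
    (hY : ∀ v, ∑ j, h (update v j (Y (v j))) = Y' (h v))
    (v : S → T) : ∑ i, (h (update v i (Y (Z (v i)))) +
      ∑ j ∈ univ.erase i, h (update (update v i (Z (v i))) j (Y (v j)))) =
      Y' (∑ i, h (update v i (Z (v i)))) := by
  rw [map_sum]
  refine Finset.sum_congr rfl fun i _ => ?_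
  have h1 := hY (update v i (Z (v i)))
  rw [← Finset.add_sum_erase _ _ (Finset.mem_univ i), update_self, update_idem] at h1
  rw [← h1]
  congr 1
  refine Finset.sum_congr rfl fun j hj => ?_
  rw [update_of_ne (Finset.ne_of_mem_erase hj)]

/-- brackets -/
theorem PP_bracket {Y Z : End K T} {c d : K} {Y' Z' : End K E} (hY : (Y, c, Y') ∈ PP S B ρ σ)
    (hZ : (Z, d, Z') ∈ PP S B ρ σ) : (Y * Z - Z * Y, (0 : K), Y' * Z' - Z' * Y') ∈ PP S B ρ σ := by
  obtain ⟨hY1, hY2⟩ := mem_PP.1 hY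
  obtain ⟨hZ1, hZ2⟩ := mem_PP.1 hZ
  refine mem_PP.2 ⟨fun x y => ?_, fun h hh v => ?_⟩
  · simp only [LinearMap.sub_apply, Module.End.mul_apply, map_sub]
    linear_combination hY1 (Z x) y - hZ1 (Y x) y + hY1 x (Z y) - hZ1 x (Y y) + c * hZ1 x y -
      d * hY1 x y
  · have h1 := comp_comp (Z := Z) (hY2 h hh) v
    have h2 := comp_comp (Z := Y) (hZ2 h hh) v
    rw [Finset.sum_add_distrib] at h1 h2
    have h3 : ∑ i, ∑ j ∈ univ.erase i, h (update (update v i (Z (v i))) j (Y (v j))) =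
        ∑ i, ∑ j ∈ univ.erase i, h (update (update v i (Y (v i))) j (Z (v j))) := by
      rw [Finset.sum_comm' (s' := fun j => univ.erase j) (t' := univ) (by
        intro x y
        simp only [Finset.mem_univ, Finset.mem_erase, ne_eq, and_true, true_and]
        exact ⟨fun h h' => h h'.symm, fun h h' => h h'.symm⟩)]
      refine Finset.sum_congr rfl fun j _ => Finset.sum_congr rfl fun i hi => ?_
      rw [update_comm (Finset.ne_of_mem_erase hi)]
    have h4 : ∀ j, h (update v j ((Y * Z - Z * Y) (v j))) = h (update v j (Y (Z (v j)))) -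
        h (update v j (Z (Y (v j)))) := by
      intro j
      rw [LinearMap.sub_apply, MultilinearMap.map_update_sub]
      rfl
    rw [Finset.sum_congr rfl fun j _ => h4 j, Finset.sum_sub_distrib]
    rw [h3, hZ2 h hh v] at h1
    rw [hY2 h hh v] at h2
    rw [LinearMap.sub_apply, Module.End.mul_apply, Module.End.mul_apply, ← h1, ← h2]
    abel

/-- The triples which are compatible with the equivariant maps of all degrees. -/
def PA (B : T →ₗ[K] T →ₗ[K] K) (ρ : G →* (T →ₗ[K] T)) (σ : G →* (E →ₗ[K] E)) :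
    Submodule K (End K T × K × End K E) :=
  ⨅ d : ℕ, PP (Fin d) B ρ σ

theorem mem_PA {p : End K T × K × End K E} : p ∈ PA B ρ σ ↔ ∀ d : ℕ, p ∈ PP (Fin d) B ρ σ :=
  Submodule.mem_iInf _

/-- The first components. -/
def LA (B : T →ₗ[K] T →ₗ[K] K) (ρ : G →* (T →ₗ[K] T)) (σ : G →* (E →ₗ[K] E)) :
    Submodule K (End K T) :=
  (PA B ρ σ).map (LinearMap.fst K _ _)

theorem mem_LA {Y : End K T} : Y ∈ LA B ρ σ ↔ ∃ c Y', (Y, c, Y') ∈ PA B ρ σ := by
  constructor
  · rintro ⟨⟨Y, c, Y'⟩, h, rfl⟩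
    exact ⟨c, Y', h⟩
  · rintro ⟨c, Y', h⟩
    exact ⟨_, h, rfl⟩

/-- The first components which are skew. -/
def L0 (B : T →ₗ[K] T →ₗ[K] K) (ρ : G →* (T →ₗ[K] T)) (σ : G →* (E →ₗ[K] E)) :
    Submodule K (End K T) where
  carrier := {Y | ∃ Y', (Y, 0, Y') ∈ PA B ρ σ}
  zero_mem' := ⟨0, Submodule.zero_mem _⟩
  add_mem' := by
    rintro Y Z ⟨Y', hY⟩ ⟨Z', hZ⟩
    refine ⟨Y' + Z', ?_⟩
    have h1 := Submodule.add_mem _ hY hZ
    rwa [Prod.mk_add_mk, Prod.mk_add_mk, add_zero] at h1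
  smul_mem' := by
    rintro a Y ⟨Y', hY⟩
    refine ⟨a • Y', ?_⟩
    have h1 := Submodule.smul_mem _ a hY
    rwa [Prod.smul_mk, Prod.smul_mk, smul_zero] at h1

theorem mem_L0 {Y : End K T} : Y ∈ L0 B ρ σ ↔ ∃ Y', (Y, 0, Y') ∈ PA B ρ σ := Iff.rfl

section

variable (hB : ∀ g x y, B (ρ g x) (ρ g y) = χ g * B x y)

include hB in
theorem PA_conj {Y : End K T} {c : K} {Y' : End K E} (hp : (Y, c, Y') ∈ PA B ρ σ) (γ : G) :
    (ρ γ * Y * ρ γ⁻¹, c, σ γ * Y' * σ γ⁻¹) ∈ PA B ρ σ :=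
  mem_PA.2 fun d => PP_conj (μ := χ) hB (mem_PA.1 hp d) γ

include hB in
theorem LA_conj (g : G) : ∀ Y ∈ LA B ρ σ, ρ g * Y * ρ g⁻¹ ∈ LA B ρ σ := by
  intro Y hY
  obtain ⟨c, Y', h⟩ := mem_LA.1 hY
  exact mem_LA.2 ⟨c, _, PA_conj hB h g⟩

include hB in
theorem L0_conj (g : G) : ∀ Y ∈ L0 B ρ σ, ρ g * Y * ρ g⁻¹ ∈ L0 B ρ σ := by
  rintro Y ⟨Y', h⟩
  exact ⟨_, PA_conj hB h g⟩

theorem L0_bracket : ∀ Y ∈ L0 B ρ σ, ∀ Z ∈ L0 B ρ σ, Y * Z - Z * Y ∈ L0 B ρ σ := by
  rintro Y ⟨Y', hY⟩ Z ⟨Z', hZ⟩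
  exact ⟨_, mem_PA.2 fun d => PP_bracket (mem_PA.1 hY d) (mem_PA.1 hZ d)⟩

theorem L0_skew : ∀ Y ∈ L0 B ρ σ, ∀ u w, B (Y u) w + B u (Y w) = 0 := by
  rintro Y ⟨Y', hY⟩ u w
  have h1 := (mem_PP.1 (mem_PA.1 hY 0)).1 u w
  rwa [zero_mul] at h1

include hB in
/-- The eigenvectors of the conjugation by `γ` are skew. -/
theorem L0_of_Lnu (hB0 : ∃ x y, B x y ≠ 0) {γ : G} {ν : K} (hν : ν ≠ 1) {N : End K T}
    (hN : N ∈ Lnu (R := ρ) (LA B ρ σ) γ ν) : N ∈ L0 B ρ σ := by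
  obtain ⟨c, Y', h⟩ := mem_LA.1 hN.1
  have h1 := PA_conj hB h γ
  have h2 : ρ γ * N * ρ γ⁻¹ = ν • N := by
    apply LinearMap.ext
    intro x
    rw [Module.End.mul_apply, Module.End.mul_apply, hN.2, rinv, LinearMap.smul_apply]
  rw [h2] at h1
  have h3 := Submodule.sub_mem _ h1 (Submodule.smul_mem _ ν h)
  rw [Prod.smul_mk, Prod.smul_mk, Prod.mk_sub_mk, Prod.mk_sub_mk, sub_self, smul_eq_mul] at h3
  obtain ⟨x, y, hxy⟩ := hB0
  have h4 := (mem_PP.1 (mem_PA.1 h3 0)).1 x y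
  simp only [LinearMap.zero_apply, map_zero, zero_add] at h4
  have h5 : (1 - ν) * c = 0 := by
    have h6 : (c - ν * c) * B x y = 0 := h4.symm
    have h7 := (mul_eq_zero.1 h6).resolve_right hxy
    linear_combination h7
  have h6 : c = 0 := (mul_eq_zero.1 h5).resolve_left (sub_ne_zero.2 (Ne.symm hν))
  rw [h6] at h
  exact ⟨Y', h⟩

include hB in
/-- The operator attached to an element of the group, for all degrees. -/
theorem exists_PA (F : G) {u v : T} (hu0 : u ≠ 0) (hv0 : v ≠ 0) {al be : K}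
    (hu : ρ F u = al • u) (hv : ρ F v = be • v) (hab : ∀ k : ℕ, 0 < k → al ^ k ≠ be ^ k) :
    ∃ Y ∈ LA B ρ σ, ¬∃ c : K, ∀ x, Y x = c • x := by
  have hinj : Function.Injective (ρ F) := by
    intro x y hxy
    have h1 := congrArg (ρ F⁻¹) hxy
    rw [← Module.End.mul_apply, ← Module.End.mul_apply, ← map_mul, inv_mul_cancel, map_one] at h1
    exact h1
  have hal : al ≠ 0 := by
    rintro rfl
    rw [zero_smul] at hu
    exact hu0 (hinj (by rw [hu, map_zero]))
  have hbe : be ≠ 0 := by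
    rintro rfl
    rw [zero_smul] at hv
    exact hv0 (hinj (by rw [hv, map_zero]))
  obtain ⟨θ, hθ⟩ := Pool.Agent.TH118.CR.exists_add (Units.mk0 al hal * (Units.mk0 be hbe)⁻¹)
    (fun k hk h => hab k hk (by
      rw [mul_pow, inv_pow, mul_inv_eq_one] at h
      exact congrArg Units.val h))
  have hθ' : ext0 θ al ≠ ext0 θ be := by
    intro h
    apply hθ
    rw [ofMul_mul, ofMul_inv, map_add, map_neg, ← ext0_ne θ hal, ← ext0_ne θ hbe, h,
      add_neg_cancel]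
  obtain ⟨Y, hY⟩ := exists_op (ρ F) (ext0 θ)
  obtain ⟨Y', hY'⟩ := exists_op (σ F) (ext0 θ)
  have hmem : (Y, ext0 θ (χ F), Y') ∈ PA B ρ σ := by
    refine mem_PA.2 fun d => mem_PP.2 ⟨fun x y => ?_, fun h hh v => ?_⟩
    · have h1 := deriv_op θ (ρ F) hinj (χ F • (1 : End K K)) hY
        (Y' := ext0 θ (χ F) • (1 : End K K)) (fun β z hz => ?_) (h := bm B) (M := 1) one_pos
        (fun v => ?_) ![x, y]
      · rw [Fin.sum_univ_two] at h1
        simpa [bm] using h1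
      · by_cases hz0 : z = 0
        · rw [hz0, map_zero, smul_zero]
        · have h2 : χ F = β := by
            obtain ⟨n, hn⟩ := mem_gen.1 hz
            have h3 : ∀ n : ℕ, ((χ F • (1 : End K K) - algebraMap K (End K K) β) ^ n) z =
                (χ F - β) ^ n * z := by
              intro n
              induction n with
              | zero => simp
              | succ n ih =>
                rw [pow_succ', Module.End.mul_apply, ih, LinearMap.sub_apply, LinearMap.smul_apply,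
                  Module.End.one_apply, Module.algebraMap_end_apply, smul_eq_mul, smul_eq_mul]
                ring
            rw [h3] at hn
            have h4 := (mul_eq_zero.1 hn).resolve_right hz0
            exact sub_eq_zero.1 (eq_zero_of_pow_eq_zero h4)
          rw [← h2, LinearMap.smul_apply, Module.End.one_apply]
      · rw [pow_one, pow_one]
        change B (ρ F (v 0)) (ρ F (v 1)) = χ F • B (v 0) (v 1)
        rw [hB, smul_eq_mul]
    · obtain ⟨Δ, hΔ, h1⟩ := hh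
      obtain ⟨M, hM, hFM⟩ := exists_pow hΔ F
      refine deriv_op θ (ρ F) hinj (σ F) hY hY' hM (fun v => ?_) v
      have h2 := h1 _ hFM v
      rw [map_pow, map_pow] at h2
      exact h2
  refine ⟨Y, mem_LA.2 ⟨_, _, hmem⟩, ?_⟩
  rintro ⟨c, hc⟩
  apply hθ'
  have hgen : ∀ (w : T) (α : K), ρ F w = α • w → w ∈ Module.End.maxGenEigenspace (ρ F) α := by
    intro w α h
    refine mem_gen.2 ⟨1, ?_⟩
    rw [pow_one, LinearMap.sub_apply, h, Module.algebraMap_end_apply, sub_self]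
  have h1 := hY al u (hgen u al hu)
  have h2 := hY be v (hgen v be hv)
  rw [hc] at h1 h2
  have h3 : c = ext0 θ al := by
    have h4 : (c - ext0 θ al) • u = 0 := by rw [sub_smul, h1, sub_self]
    exact sub_eq_zero.1 ((smul_eq_zero.1 h4).resolve_right hu0)
  have h5 : c = ext0 θ be := by
    have h4 : (c - ext0 θ be) • v = 0 := by rw [sub_smul, h2, sub_self]
    exact sub_eq_zero.1 ((smul_eq_zero.1 h4).resolve_right hv0)
  rw [← h3, ← h5]

end

/-- **The whole symplectic Lie algebra.** -/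
theorem small_all (halt : ∀ v, B v v = 0) (hnd : ∀ u, (∀ v, B u v = 0) → u = 0)
    (hB : ∀ g x y, B (ρ g x) (ρ g y) = χ g * B x y)
    (hX : Pool.Agent.W522.U.SI (X := T) ρ (⊤ : Submodule K T))
    {γ : G} {k : ℕ} (hk : 0 < k) (hγ : ρ γ ^ k = 1) {a : K}
    (ha : a * a = χ γ) (hsim : ∀ α, α ≠ a → finrank K (Module.End.eigenspace (ρ γ) α) ≤ 1)
    (hne : ∃ α, α ≠ a ∧ Module.End.eigenspace (ρ γ) α ≠ ⊥)
    (hsmall : (finrank K T - finrank K (Module.End.eigenspace (ρ γ) a)) ^ 2 <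
      2 * finrank K (Module.End.eigenspace (ρ γ) a))
    (F : G) {u v : T} (hu0 : u ≠ 0) (hv0 : v ≠ 0) {al be : K}
    (hu : ρ F u = al • u) (hv : ρ F v = be • v) (hab : ∀ k : ℕ, 0 < k → al ^ k ≠ be ^ k)
    (x y : T) : Pool.Agent.H204R3.SP.SS B x y ∈ L0 B ρ σ := by
  have heig : ∀ α, eig (X := T) ρ γ ⊤ α = Module.End.eigenspace (ρ γ) α := fun α => top_inf_eq _
  have hsim' : ∀ α, α ≠ a → finrank K (eig (X := T) ρ γ ⊤ α) ≤ 1 := by
    intro α hα
    rw [heig]
    exact hsim α hα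
  have hB0 : ∃ y, B u y ≠ 0 := by
    by_contra hcon
    push Not at hcon
    exact hu0 (hnd u hcon)
  obtain ⟨α, hα, hαb⟩ := hne
  have hα1 : finrank K (eig (X := T) ρ γ ⊤ α) = 1 := by
    refine le_antisymm (hsim' α hα) ?_
    rw [heig]
    exact Submodule.one_le_finrank_iff.2 hαb
  obtain ⟨Y, hY, hYn⟩ := exists_PA (σ := σ) (χ := χ) hB F hu0 hv0 hu hv hab
  obtain ⟨ν, hν, hνb⟩ := exists_Lnu (R := ρ) (L := LA B ρ σ) (γ := γ)
    (fun g Y hY => LA_conj (χ := χ) hB g Y hY) hk hγ hX ⟨Y, hY, hYn⟩ hα1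
  obtain ⟨N, hN, hN0⟩ := Submodule.exists_mem_ne_zero_of_ne_bot hνb
  have hNL : N ∈ L0 B ρ σ := L0_of_Lnu (χ := χ) hB ⟨u, hB0⟩ hν hN
  have hns : ∃ Y ∈ L0 B ρ σ, ¬∃ c : K, ∀ u : T, Y u = c • u := by
    refine ⟨N, hNL, ?_⟩
    rintro ⟨c, hc⟩
    apply hN0
    have hc0 : c = 0 := by
      obtain ⟨y, hy⟩ := hB0
      have h3 := L0_skew N hNL u y
      rw [hc, hc, map_smul, map_smul, LinearMap.smul_apply, smul_eq_mul] at h3
      have h4 : (2 * c) * B u y = 0 := by linear_combination h3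
      exact (mul_eq_zero.1 ((mul_eq_zero.1 h4).resolve_right hy)).resolve_left two_ne_zero
    apply LinearMap.ext
    intro z
    rw [hc, hc0, zero_smul, LinearMap.zero_apply]
  obtain ⟨M, hM, hM2, hM0, hMr⟩ := small_N (R := ρ) (χ := χ) (L := L0 B ρ σ) hk hγ halt hnd hB
    ha hsim' (L0_conj hB) L0_bracket L0_skew hX hns ⟨α, hα, by rw [heig]; exact hαb⟩
    (by rw [heig]; exact hsmall)
  exact full_of_N (R := ρ) (χ := χ) halt hnd hB (L0_conj hB) L0_bracket L0_skew hX hM hM2 hM0 hMr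
    x y

end Pool.Agent.TH118.ZC
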