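import Mathlib
import Pool.Agent.TH118.ZC.Pairs

/-!
# Relations between values of equivariant maps are preserved by the one-parameter groups
-/

set_option linter.unusedSectionVars false

namespace Pool.Agent.TH118.ZC

open Module Finset Function Pool.Agent.TH125.Gal Pool.Agent.TH118.IS Pool.Agent.TH118.SG

variable {K : Type} [Field K] [CharZero K] {T : Type} [AddCommGroup T]
  [Module K T] {E : Type} [AddCommGroup E] [Module K E] {G : Type} [Group G]

/-- the polynomial of the relation -/
noncomputable def relp {n : ℕ} (c : Fin n → K) (d : Fin n → ℕ)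
    (h : (k : Fin n) → MultilinearMap K (fun _ : Fin (d k) => T) E) (N : End K T)
    (v : (k : Fin n) → Fin (d k) → T) (φ : E →ₗ[K] K) : Polynomial K :=
  ∑ k, Polynomial.C (c k) * pol (h k) φ (v k) (fun j => N (v k j)) (fun _ => 0)

theorem relp_eval {n : ℕ} (c : Fin n → K) (d : Fin n → ℕ)
    (h : (k : Fin n) → MultilinearMap K (fun _ : Fin (d k) => T) E) (N : End K T)
    (v : (k : Fin n) → Fin (d k) → T) (φ : E →ₗ[K] K) (t : K) :
    (relp c d h N v φ).eval t = φ (∑ k, c k • h k fun j => v k j + t • N (v k j)) := by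
  rw [relp, Polynomial.eval_finsetSum, map_sum]
  refine Finset.sum_congr rfl fun k _ => ?_
  rw [Polynomial.eval_mul, Polynomial.eval_C, pol_eval, map_smul, smul_eq_mul]
  congr 3
  funext j
  rw [smul_zero, add_zero]

theorem pol_taylor {S : Type} [Fintype S] [DecidableEq S]
    (h : MultilinearMap K (fun _ : S => T) E) (φ : E →ₗ[K] K) (a b : S → T) (t : K) :
    Polynomial.taylor t (pol h φ a b fun _ => 0) = pol h φ (fun j => a j + t • b j) b fun _ => 0 := by
  refine Polynomial.funext fun s => ?_
  rw [Polynomial.taylor_eval, pol_eval, pol_eval]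
  congr 2
  funext j
  rw [smul_zero, smul_zero, add_zero, add_zero, add_smul, add_assoc, add_comm (s • b j)]

/-- the differential equation -/
theorem relp_deriv {n : ℕ} (c : Fin n → K) (d : Fin n → ℕ)
    (h : (k : Fin n) → MultilinearMap K (fun _ : Fin (d k) => T) E) {N : End K T}
    (hN : ∀ x, N (N x) = 0) {Y' : End K E}
    (hY : ∀ k v, ∑ j, h k (update v j (N (v j))) = Y' (h k v))
    (v : (k : Fin n) → Fin (d k) → T) (φ : E →ₗ[K] K) :
    Polynomial.derivative (relp c d h N v φ) = relp c d h N v (φ ∘ₗ Y') := by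
  refine Polynomial.funext fun t => ?_
  rw [← Polynomial.taylor_coeff_one, relp, map_sum, Polynomial.finsetSum_coeff, relp_eval,
    LinearMap.comp_apply, map_sum, map_sum]
  refine Finset.sum_congr rfl fun k _ => ?_
  rw [Polynomial.taylor_mul, Polynomial.taylor_C, Polynomial.coeff_C_mul, pol_taylor, pol_coeff,
    map_smul, map_smul, smul_eq_mul, ← hY]
  congr 4
  funext j
  congr 1
  rw [map_add, map_smul, hN, smul_zero, add_zero]

/-- **Relations are preserved.** -/
theorem rel_exp {n : ℕ} (c : Fin n → K) (d : Fin n → ℕ)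
    (h : (k : Fin n) → MultilinearMap K (fun _ : Fin (d k) => T) E) {N : End K T}
    (hN : ∀ x, N (N x) = 0) {Y' : End K E}
    (hY : ∀ k v, ∑ j, h k (update v j (N (v j))) = Y' (h k v))
    (v : (k : Fin n) → Fin (d k) → T) (h0 : ∑ k, c k • h k (v k) = 0) (t : K) :
    ∑ k, c k • h k (fun j => v k j + t • N (v k j)) = 0 := by
  have h1 : ∀ (i : ℕ) (φ : E →ₗ[K] K), Polynomial.derivative^[i] (relp c d h N v φ) =
      relp c d h N v (φ ∘ₗ (Y' ^ i)) := by
    intro i
    induction i with
    | zero =>
      intro φ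
      rfl
    | succ i ih =>
      intro φ
      rw [Function.iterate_succ_apply, relp_deriv c d h hN hY, ih, pow_succ']
      rfl
  have h2 : ∀ φ : E →ₗ[K] K, relp c d h N v φ = 0 := by
    intro φ
    ext i
    have h3 := congrArg (Polynomial.eval 0) (h1 i φ)
    rw [relp_eval] at h3
    have h4 : ∑ k, c k • h k (fun j => v k j + (0 : K) • N (v k j)) = 0 := by
      rw [← h0]
      refine Finset.sum_congr rfl fun k _ => ?_
      congr 2
      funext j
      rw [zero_smul, add_zero]
    rw [h4, map_zero, ← Polynomial.coeff_zero_eq_eval_zero, Polynomial.coeff_iterate_derivative,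
      zero_add, Nat.descFactorial_self] at h3
    rw [Polynomial.coeff_zero]
    rcases smul_eq_zero.1 h3 with h5 | h5
    · exact absurd h5 (Nat.factorial_ne_zero i)
    · exact h5
  rw [← Module.forall_dual_apply_eq_zero_iff K]
  intro φ
  rw [← relp_eval, h2, Polynomial.eval_zero]

end Pool.Agent.TH118.ZC
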