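import Mathlib
import Pool.Agent.TH118.ZC.Ode

/-!
# The space of the polynomial functions of bounded degree on the group
-/

set_option linter.unusedSectionVars false

namespace Pool.Agent.TH118.ZC

open Module Finset Function Pool.Agent.TH125.Gal

variable {K : Type} [Field K] {T : Type} [AddCommGroup T]
  [Module K T] {G : Type} [Group G] (ρ : G →* (T →ₗ[K] T)) {ι : Type}
  (b : Basis ι K T)

/-- The function `g ↦ ∏ j, b_{r j}^* (ρ g v_j)`. -/
noncomputable def coefm {d : ℕ} (r : Fin d → ι) :
    MultilinearMap K (fun _ : Fin d => T) (G → K) :=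
  MultilinearMap.pi fun g =>
    (MultilinearMap.mkPiAlgebra K (Fin d) K).compLinearMap fun j => (b.coord (r j)).comp (ρ g)

theorem coefm_apply {d : ℕ} (r : Fin d → ι) (v : Fin d → T) (g : G) :
    coefm ρ b r v g = ∏ j, b.repr (ρ g (v j)) (r j) := rfl

/-- The functions of degree at most `D`. -/
def ED (D : ℕ) : Submodule K (G → K) :=
  Submodule.span K {φ | ∃ d ≤ D, ∃ (r : Fin d → ι) (v : Fin d → T), φ = coefm ρ b r v}

theorem coefm_mem {d D : ℕ} (h : d ≤ D) (r : Fin d → ι) (v : Fin d → T) :
    coefm ρ b r v ∈ ED ρ b D :=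
  Submodule.subset_span ⟨d, h, r, v, rfl⟩

instance [Finite ι] (D : ℕ) : FiniteDimensional K (ED ρ b D) := by
  classical
  have := Fintype.ofFinite ι
  let f : (Σ d : Fin (D + 1), (Fin d → ι) × (Fin d → ι)) → (G → K) := fun p =>
    coefm ρ b p.2.1 fun j => b (p.2.2 j)
  have h1 : ED ρ b D ≤ Submodule.span K (Set.range f) := by
    rw [ED, Submodule.span_le]
    rintro _ ⟨d, hd, r, v, rfl⟩
    have h2 : coefm ρ b r v = ∑ s : Fin d → ι, (∏ j, b.repr (v j) (s j)) •
        coefm ρ b r fun j => b (s j) := by
      conv_lhs => rw [show v = fun j => ∑ i, b.repr (v j) i • b i from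
        funext fun j => (b.sum_repr (v j)).symm]
      rw [MultilinearMap.map_sum]
      refine Finset.sum_congr rfl fun s _ => ?_
      exact (coefm ρ b r).map_smul_univ (fun j => b.repr (v j) (s j)) fun j => b (s j)
    rw [h2]
    refine Submodule.sum_mem _ fun s _ => Submodule.smul_mem _ _ (Submodule.subset_span ?_)
    exact ⟨⟨⟨d, Nat.lt_succ_of_le hd⟩, r, s⟩, rfl⟩
  have h2 : FiniteDimensional K (Submodule.span K (Set.range f)) :=
    FiniteDimensional.span_of_finite K (Set.finite_range f)
  exact Submodule.finiteDimensional_of_le h1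

/-- right translations -/
theorem right_coefm {d : ℕ} (r : Fin d → ι) (v : Fin d → T) (s : G) :
    LinearMap.funLeft K K (fun g : G => g * s) (coefm ρ b r v) =
      coefm ρ b r fun j => ρ s (v j) := by
  funext g
  rw [LinearMap.funLeft_apply, coefm_apply, coefm_apply]
  refine Finset.prod_congr rfl fun j _ => ?_
  rw [map_mul]
  rfl

theorem right_mem (D : ℕ) (s : G) : ∀ φ ∈ ED ρ b D,
    LinearMap.funLeft K K (fun g : G => g * s) φ ∈ ED ρ b D := by
  intro φ hφ
  rw [ED] at hφ
  induction hφ using Submodule.span_induction with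
  | mem φ hφ =>
    obtain ⟨d, hd, r, v, rfl⟩ := hφ
    rw [right_coefm]
    exact coefm_mem ρ b hd _ _
  | zero => rw [map_zero]; exact Submodule.zero_mem _
  | add φ φ' _ _ h h' => rw [map_add]; exact Submodule.add_mem _ h h'
  | smul c φ _ h => rw [map_smul]; exact Submodule.smul_mem _ _ h

/-- The action by right translations. -/
noncomputable def sig (D : ℕ) : G →* (ED ρ b D →ₗ[K] ED ρ b D) where
  toFun s := (LinearMap.funLeft K K fun g : G => g * s).restrict (right_mem ρ b D s)
  map_one' := by
    apply LinearMap.ext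
    intro φ
    apply Subtype.ext
    funext g
    change (φ : G → K) (g * 1) = (φ : G → K) g
    rw [mul_one]
  map_mul' s s' := by
    apply LinearMap.ext
    intro φ
    apply Subtype.ext
    funext g
    change (φ : G → K) (g * (s * s')) = (φ : G → K) (g * s * s')
    rw [mul_assoc]

/-- The multilinear map with values in the functions of degree at most `D`. -/
noncomputable def coefD {d D : ℕ} (h : d ≤ D) (r : Fin d → ι) :
    MultilinearMap K (fun _ : Fin d => T) (ED ρ b D) :=
  (coefm ρ b r).codRestrict _ fun v => coefm_mem ρ b h r v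

theorem coefD_apply {d D : ℕ} (h : d ≤ D) (r : Fin d → ι) (v : Fin d → T) :
    (coefD ρ b h r v : G → K) = coefm ρ b r v := rfl

theorem eqv_coefD {d D : ℕ} (h : d ≤ D) (r : Fin d → ι) :
    Eqv ρ (sig ρ b D) (coefD ρ b h r) := by
  refine ⟨⊤, inferInstance, fun s _ v => ?_⟩
  apply Subtype.ext
  exact (right_coefm ρ b r v s).symm

end Pool.Agent.TH118.ZC
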