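import Mathlib

/-!
# The symplectic group is generated by transvections
-/

set_option linter.unusedSectionVars false

namespace Pool.Agent.TH118.ZC

open Module

variable {K : Type} [Field K] {T : Type} [AddCommGroup T] [Module K T]

/-- The transvection `x ↦ x + t B(u, x) u`. -/
def tv (B : T →ₗ[K] T →ₗ[K] K) (u : T) (t : K) : End K T := 1 + t • (B u).smulRight u

theorem tv_apply (B : T →ₗ[K] T →ₗ[K] K) (u : T) (t : K) (x : T) :
    tv B u t x = x + (t * B u x) • u := by
  rw [tv, LinearMap.add_apply, LinearMap.smul_apply, LinearMap.smulRight_apply, smul_smul]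
  rfl

/-- The monoid generated by the transvections. -/
def TM (B : T →ₗ[K] T →ₗ[K] K) : Submonoid (End K T) :=
  Submonoid.closure (Set.range fun p : T × K => tv B p.1 p.2)

theorem tv_mem (B : T →ₗ[K] T →ₗ[K] K) (u : T) (t : K) : tv B u t ∈ TM B :=
  Submonoid.subset_closure ⟨(u, t), rfl⟩

variable {B : T →ₗ[K] T →ₗ[K] K} (halt : ∀ v, B v v = 0)

include halt in
theorem tv_inv (u : T) (t : K) : tv B u (-t) * tv B u t = 1 := by
  apply LinearMap.ext
  intro x
  rw [Module.End.mul_apply, tv_apply, tv_apply, map_add, map_smul, halt, smul_zero, add_zero,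
    Module.End.one_apply]
  module

include halt in
theorem skew (x y : T) : B x y = -B y x := by
  have h1 := halt (x + y)
  rw [map_add, map_add, LinearMap.add_apply, LinearMap.add_apply, halt, halt, zero_add,
    add_zero] at h1
  exact eq_neg_of_add_eq_zero_left (by rw [add_comm]; exact h1)

include halt in
theorem tv_sp (u : T) (t : K) (x y : T) : B (tv B u t x) (tv B u t y) = B x y := by
  rw [tv_apply, tv_apply]
  simp only [map_add, map_smul, LinearMap.add_apply, LinearMap.smul_apply, smul_eq_mul, halt]
  rw [skew halt x u]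
  ring

variable [CharZero K] (hnd : ∀ u, (∀ v, B u v = 0) → u = 0)

include halt hnd in
/-- One step of the reduction. -/
theorem gen_step {g : End K T} (hg : ∀ x y, B (g x) (g y) = B x y) (hg1 : g ≠ 1) :
    ∃ m ∈ TM B, (∃ m' ∈ TM B, m' * m = 1) ∧ (∀ x y, B (m x) (m y) = B x y) ∧
      (∃ x, m (g x) = x ∧ g x ≠ x) ∧ ∀ z, g z = z → m (g z) = z := by
  by_cases hcase : ∃ x, B (g x) x ≠ 0
  · obtain ⟨x, hx⟩ := hcase
    set w := g x - x with hw
    have h1 : B w (g x) = B (g x) x := by
      rw [hw, map_sub, LinearMap.sub_apply, halt, zero_sub, skew halt x (g x), neg_neg]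
    refine ⟨tv B w (-(B (g x) x)⁻¹), tv_mem _ _ _, ⟨tv B w (- -(B (g x) x)⁻¹), tv_mem _ _ _,
      tv_inv halt _ _⟩, tv_sp halt _ _, ⟨x, ?_, ?_⟩, fun z hz => ?_⟩
    · rw [tv_apply, h1, neg_mul, inv_mul_cancel₀ hx, hw]
      module
    · intro h
      rw [h, halt] at hx
      exact hx rfl
    · have h2 : B w z = 0 := by
        rw [hw, map_sub, LinearMap.sub_apply]
        nth_rw 1 [← hz]
        rw [hg, sub_self]
      rw [hz, tv_apply, h2, mul_zero, zero_smul, add_zero]
  · push Not at hcase
    have hpol : ∀ x y, B (g x) y + B (g y) x = 0 := by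
      intro x y
      have h1 := hcase (x + y)
      simp only [map_add, LinearMap.add_apply, hcase, zero_add, add_zero] at h1
      rw [add_comm]
      exact h1
    have hinv : ∀ y, g (g y) = y := by
      intro y
      rw [← sub_eq_zero]
      refine hnd _ fun z => ?_
      have h1 := hpol (g y) z
      rw [hg] at h1
      rw [map_sub, LinearMap.sub_apply, skew halt y z]
      linear_combination h1
    obtain ⟨y, hy⟩ : ∃ y, g y ≠ y := by
      by_contra hcon
      push Not at hcon
      exact hg1 (LinearMap.ext hcon)
    set x := g y - y with hx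
    have hgx : g x = -x := by
      rw [hx, map_sub, hinv]
      abel
    have hx0 : x ≠ 0 := sub_ne_zero.2 hy
    obtain ⟨z, hz⟩ : ∃ z, B x z ≠ 0 := by
      by_contra hcon
      push Not at hcon
      exact hx0 (hnd x hcon)
    set w := z - g z with hw
    have hgw : g w = -w := by
      rw [hw, map_sub, hinv]
      abel
    have hxw : B x w ≠ 0 := by
      have h1 : B x (g z) = -B x z := by
        have h2 := hg x (g z)
        rw [hgx, hinv, map_neg, LinearMap.neg_apply] at h2
        exact h2.symm
      rw [hw, map_sub, h1, sub_neg_eq_add, ← two_mul]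
      exact mul_ne_zero two_ne_zero hz
    have hfix : ∀ z, g z = z → B x z = 0 ∧ B w z = 0 := by
      intro z hz
      have h1 := hg x z
      have h2 := hg w z
      rw [hgx, hz, map_neg, LinearMap.neg_apply] at h1
      rw [hgw, hz, map_neg, LinearMap.neg_apply] at h2
      constructor
      · have h3 : (2 : K) * B x z = 0 := by linear_combination -h1
        exact (mul_eq_zero.1 h3).resolve_left two_ne_zero
      · have h3 : (2 : K) * B w z = 0 := by linear_combination -h2
        exact (mul_eq_zero.1 h3).resolve_left two_ne_zero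
    have hwx : B w x = -B x w := skew halt w x
    refine ⟨tv B w ((B x w)⁻¹) * tv B (x + x + w) ((B x w)⁻¹), Submonoid.mul_mem _ (tv_mem _ _ _)
      (tv_mem _ _ _), ⟨tv B (x + x + w) (-(B x w)⁻¹) * tv B w (-(B x w)⁻¹),
      Submonoid.mul_mem _ (tv_mem _ _ _) (tv_mem _ _ _), ?_⟩, fun a b => ?_, ⟨x, ?_, ?_⟩,
      fun z hz => ?_⟩
    · rw [mul_assoc, ← mul_assoc (tv B w (-(B x w)⁻¹)), tv_inv halt, one_mul, tv_inv halt]
    · rw [Module.End.mul_apply, Module.End.mul_apply, tv_sp halt, tv_sp halt]
    · rw [hgx, Module.End.mul_apply, tv_apply B (x + x + w), map_neg]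
      have h1 : B (x + x + w) x = -B x w := by
        rw [map_add, map_add, LinearMap.add_apply, LinearMap.add_apply, halt, hwx]
        ring
      rw [h1, neg_neg, inv_mul_cancel₀ hxw, one_smul]
      have h2 : -x + (x + x + w) = x + w := by abel
      rw [h2, tv_apply, map_add, halt, add_zero, hwx, mul_neg, inv_mul_cancel₀ hxw]
      module
    · rw [hgx]
      intro h
      apply hx0
      have h3 : (2 : K) • x = 0 := by
        rw [two_smul]
        nth_rw 1 [← h]
        abel
      exact (smul_eq_zero.1 h3).resolve_left two_ne_zero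
    · obtain ⟨h1, h2⟩ := hfix z hz
      rw [hz, Module.End.mul_apply, tv_apply B (x + x + w)]
      have h3 : B (x + x + w) z = 0 := by
        rw [map_add, map_add, LinearMap.add_apply, LinearMap.add_apply, h1, h2]
        ring
      rw [h3, mul_zero, zero_smul, add_zero, tv_apply, h2, mul_zero, zero_smul, add_zero]

include halt hnd in
/-- **The symplectic group is generated by transvections.** -/
theorem sp_le_TM [FiniteDimensional K T] {g : End K T} (hg : ∀ x y, B (g x) (g y) = B x y) :
    g ∈ TM B := by
  have key : ∀ n : ℕ, ∀ g : End K T, (∀ x y, B (g x) (g y) = B x y) →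
      finrank K T - finrank K (LinearMap.ker (g - 1)) ≤ n → g ∈ TM B := by
    intro n
    induction n with
    | zero =>
      intro g hg hn
      have h1 : finrank K (LinearMap.ker (g - 1)) = finrank K T :=
        le_antisymm (Submodule.finrank_le _) (by omega)
      have h2 := Submodule.eq_top_of_finrank_eq h1
      have h3 : g = 1 := sub_eq_zero.1 (LinearMap.ker_eq_top.1 h2)
      rw [h3]
      exact Submonoid.one_mem _
    | succ n ih =>
      intro g hg hn
      by_cases hg1 : g = 1
      · rw [hg1]
        exact Submonoid.one_mem _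
      obtain ⟨m, hm, ⟨m', hm', hmm⟩, hmB, ⟨x, hx1, hx2⟩, hfix⟩ := gen_step halt hnd hg hg1
      have h1 : LinearMap.ker (g - 1) < LinearMap.ker (m * g - 1) := by
        refine lt_of_le_of_ne (fun z hz => ?_) fun h => ?_
        · rw [LinearMap.mem_ker, LinearMap.sub_apply, Module.End.one_apply, sub_eq_zero] at hz
          rw [LinearMap.mem_ker, LinearMap.sub_apply, Module.End.one_apply, sub_eq_zero]
          exact hfix z hz
        · have h2 : x ∈ LinearMap.ker (m * g - 1) := by
            rw [LinearMap.mem_ker, LinearMap.sub_apply, Module.End.one_apply, sub_eq_zero]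
            exact hx1
          rw [← h, LinearMap.mem_ker, LinearMap.sub_apply, Module.End.one_apply,
            sub_eq_zero] at h2
          exact hx2 h2
      have h2 := Submodule.finrank_lt_finrank_of_lt h1
      have h3 := Submodule.finrank_le (LinearMap.ker (m * g - 1))
      have h4 := ih (m * g) (fun x y => by
        rw [Module.End.mul_apply, Module.End.mul_apply, hmB, hg]) (by omega)
      have h5 : g = m' * (m * g) := by rw [← mul_assoc, hmm, one_mul]
      rw [h5]
      exact Submonoid.mul_mem _ hm' h4
  exact key _ g hg le_rfl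

end Pool.Agent.TH118.ZC
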