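import Mathlib
import Pool.Agent.TH118.ZC.Fun
import Pool.Agent.TH118.ZC.Gen

/-!
# The Zariski closure
-/

set_option linter.unusedSectionVars false

namespace Pool.Agent.TH118.ZC

open Module Finset Function Pool.Agent.TH125.Gal Pool.Agent.TH118.SG

section defs

variable {K : Type} [Field K] {T : Type} [AddCommGroup T] [Module K T] {ι : Type}

/-- The value at `x` of a polynomial in the entries of matrices with respect to the basis `b`. -/
noncomputable def ev (b : Basis ι K T) (p : MvPolynomial (ι × ι) K) (x : End K T) : K :=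
  MvPolynomial.eval (fun ij => b.repr (x (b ij.2)) ij.1) p

/-- The Zariski closure in the space of all endomorphisms: the endomorphisms which satisfy all
polynomial equations (in the matrix entries) that hold on the set `A`. -/
def zariskiClosure (b : Basis ι K T) (A : Set (End K T)) : Set (End K T) :=
  {x | ∀ p : MvPolynomial (ι × ι) K, (∀ y ∈ A, ev b p y = 0) → ev b p x = 0}

/-- The similitudes of the form `B`. -/
def similitudes (B : T →ₗ[K] T →ₗ[K] K) : Set (End K T) :=
  {x | ∃ c : K, c ≠ 0 ∧ ∀ u v, B (x u) (x v) = c * B u v}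

end defs

variable {K : Type} [Field K] {T : Type} [AddCommGroup T] [Module K T] {ι : Type}
  (b : Basis ι K T)

/-- The polynomial functions. -/
def PF : Submodule K (End K T → K) :=
  Submodule.span K {Φ | ∃ (d : ℕ) (r : Fin d → ι) (v : Fin d → T),
    Φ = fun x => ∏ j, b.repr (x (v j)) (r j)}

theorem PF_mul {Φ : End K T → K} (hΦ : Φ ∈ PF b) (i j : ι) :
    (fun x => Φ x * b.repr (x (b j)) i) ∈ PF b := by
  rw [PF] at hΦ
  induction hΦ using Submodule.span_induction with
  | mem Φ hΦ =>
    obtain ⟨d, r, v, rfl⟩ := hΦ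
    refine Submodule.subset_span ⟨d + 1, Fin.cons i r, Fin.cons (b j) v, ?_⟩
    funext x
    rw [Fin.prod_univ_succ]
    simp only [Fin.cons_zero, Fin.cons_succ]
    rw [mul_comm]
  | zero =>
    simp only [Pi.zero_apply, zero_mul]
    exact Submodule.zero_mem _
  | add Φ Φ' _ _ h h' =>
    have h1 := Submodule.add_mem _ h h'
    have h2 : (fun x => (Φ + Φ') x * b.repr (x (b j)) i) =
        (fun x => Φ x * b.repr (x (b j)) i) + fun x => Φ' x * b.repr (x (b j)) i := by
      funext x
      simp only [Pi.add_apply, add_mul]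
    rw [h2]
    exact h1
  | smul c Φ _ h =>
    have h1 := Submodule.smul_mem _ c h
    have h2 : (fun x => (c • Φ) x * b.repr (x (b j)) i) =
        c • fun x => Φ x * b.repr (x (b j)) i := by
      funext x
      simp only [Pi.smul_apply, smul_eq_mul, mul_assoc]
    rw [h2]
    exact h1

theorem ev_mem (p : MvPolynomial (ι × ι) K) : ev b p ∈ PF b := by
  induction p using MvPolynomial.induction_on with
  | C a =>
    have h1 : ev b (MvPolynomial.C a) = a • fun x : End K T => ∏ j : Fin 0,
        b.repr (x ((Fin.elim0 j : T))) (Fin.elim0 j : ι) := by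
      funext x
      rw [ev, MvPolynomial.eval_C]
      simp
    rw [h1]
    exact Submodule.smul_mem _ _ (Submodule.subset_span ⟨0, fun j => Fin.elim0 j,
      fun j => Fin.elim0 j, rfl⟩)
  | add p q hp hq =>
    have h1 : ev b (p + q) = ev b p + ev b q := by
      funext x
      simp only [ev, map_add, Pi.add_apply]
    rw [h1]
    exact Submodule.add_mem _ hp hq
  | mul_X p ij hp =>
    have h1 : ev b (p * MvPolynomial.X ij) = fun x => ev b p x * b.repr (x (b ij.2)) ij.1 := by
      funext x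
      simp only [ev, map_mul, MvPolynomial.eval_X]
    rw [h1]
    exact PF_mul b hp _ _

/-- Representation by a finite sum. -/
theorem PF_repr {Φ : End K T → K} (hΦ : Φ ∈ PF b) :
    ∃ (n : ℕ) (c : Fin n → K) (d : Fin n → ℕ) (r : (k : Fin n) → Fin (d k) → ι)
      (v : (k : Fin n) → Fin (d k) → T),
      ∀ x, Φ x = ∑ k, c k * ∏ j, b.repr (x (v k j)) (r k j) := by
  obtain ⟨n, c, g, hg⟩ := Submodule.mem_span_set'.1 hΦ
  choose d r v h using fun k => (g k).2
  refine ⟨n, c, d, r, v, fun x => ?_⟩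
  rw [← hg, Finset.sum_apply]
  refine Finset.sum_congr rfl fun k _ => ?_
  rw [Pi.smul_apply, smul_eq_mul]
  congr 1
  exact congrFun (h k) x

theorem PF_right {Φ : End K T → K} (hΦ : Φ ∈ PF b) (s : End K T) :
    (fun x => Φ (x * s)) ∈ PF b := by
  rw [PF] at hΦ
  induction hΦ using Submodule.span_induction with
  | mem Φ hΦ =>
    obtain ⟨d, r, v, rfl⟩ := hΦ
    exact Submodule.subset_span ⟨d, r, fun j => s (v j), rfl⟩
  | zero => exact Submodule.zero_mem _
  | add Φ Φ' _ _ h h' => exact Submodule.add_mem _ h h'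
  | smul c Φ _ h => exact Submodule.smul_mem _ c h

section

variable [CharZero K] {G : Type} [Group G] {ρ : G →* (T →ₗ[K] T)} {B : T →ₗ[K] T →ₗ[K] K}
  [IsAlgClosed K] [FiniteDimensional K T] [Finite ι]

/-- The basic step: a function which vanishes on the group vanishes on its translates by the
one-parameter groups. -/
theorem vanish_step {N : End K T} (hN : ∀ x, N (N x) = 0)
    (hNL : ∀ D : ℕ, N ∈ L0 B ρ (sig ρ b D)) {Φ : End K T → K} (hΦ : Φ ∈ PF b)
    (h0 : ∀ g, Φ (ρ g) = 0) (t : K) (g : G) : Φ (ρ g * (1 + t • N)) = 0 := by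
  obtain ⟨n, c, d, r, v, hΦ⟩ := PF_repr b hΦ
  set D := ∑ k, d k with hD
  have hd : ∀ k, d k ≤ D := fun k => Finset.single_le_sum (f := d) (fun _ _ => Nat.zero_le _)
    (Finset.mem_univ k)
  obtain ⟨Y', hY'⟩ := mem_L0.1 (hNL D)
  have h1 : ∑ k, c k • coefD ρ b (hd k) (r k) (v k) = 0 := by
    apply Subtype.ext
    funext g
    have h2 := h0 g
    rw [hΦ] at h2
    rw [Submodule.coe_sum, Finset.sum_apply]
    exact h2
  have h2 := rel_exp c d (fun k => coefD ρ b (hd k) (r k)) hN (Y' := Y')
    (fun k w => (mem_PP.1 (mem_PA.1 hY' (d k))).2 _ (eqv_coefD ρ b (hd k) (r k)) w) v h1 t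
  have h3 := congrFun (congrArg Subtype.val h2) g
  rw [Submodule.coe_sum, Finset.sum_apply] at h3
  rw [hΦ]
  exact h3

/-- A function which vanishes on the group vanishes on its translates by the symplectic group. -/
theorem vanish_sp (halt : ∀ v, B v v = 0) (hnd : ∀ u, (∀ v, B u v = 0) → u = 0)
    (hall : ∀ (D : ℕ) (x y : T), Pool.Agent.H204R3.SP.SS B x y ∈ L0 B ρ (sig ρ b D))
    {s : End K T} (hs : ∀ x y, B (s x) (s y) = B x y) :
    ∀ Φ ∈ PF b, (∀ g, Φ (ρ g) = 0) → ∀ g, Φ (ρ g * s) = 0 := by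
  have hs' := sp_le_TM halt hnd hs
  have hN : ∀ (u : T) (D : ℕ), (B u).smulRight u ∈ L0 B ρ (sig ρ b D) := by
    intro u D
    have h1 := Submodule.smul_mem _ (2 : K)⁻¹ (hall D u u)
    have h2 : (2 : K)⁻¹ • Pool.Agent.H204R3.SP.SS B u u = (B u).smulRight u := by
      rw [Pool.Agent.H204R3.SP.SS, ← two_smul K, smul_smul, inv_mul_cancel₀ two_ne_zero, one_smul]
    rwa [h2] at h1
  clear hs
  induction hs' using Submonoid.closure_induction with
  | mem s hs =>
    obtain ⟨⟨u, t⟩, rfl⟩ := hs
    intro Φ hΦ h0 g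
    exact vanish_step b (N := (B u).smulRight u) (fun x => by
      rw [LinearMap.smulRight_apply, LinearMap.smulRight_apply, map_smul, halt, smul_zero,
        zero_smul]) (hN u) hΦ h0 t g
  | one =>
    intro Φ _ h0 g
    rw [mul_one]
    exact h0 g
  | mul s s' _ _ h h' =>
    intro Φ hΦ h0 g
    have h1 := h (fun x => Φ (x * s')) (PF_right b hΦ s') (fun g => h' Φ hΦ h0 g) g
    rwa [mul_assoc] at h1

/-- **The Zariski closure contains all similitudes.** -/
theorem similitudes_subset (halt : ∀ v, B v v = 0) (hnd : ∀ u, (∀ v, B u v = 0) → u = 0)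
    {χ : G →* K} (hB : ∀ g x y, B (ρ g x) (ρ g y) = χ g * B x y)
    (hχ : (Set.range χ).Infinite)
    (hall : ∀ (D : ℕ) (x y : T), Pool.Agent.H204R3.SP.SS B x y ∈ L0 B ρ (sig ρ b D)) :
    similitudes B ⊆ zariskiClosure b (Set.range ρ) := by
  rintro x ⟨c, hc0, hx⟩ p hp
  have hΦ := ev_mem b p
  have h0 : ∀ g, ev b p (ρ g) = 0 := fun g => hp _ ⟨g, rfl⟩
  obtain ⟨z, hz⟩ := IsAlgClosed.exists_pow_nat_eq c (n := 2) (by norm_num)
  have hz0 : z ≠ 0 := by
    rintro rfl
    apply hc0
    rw [← hz]
    norm_num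
  set s : End K T := z⁻¹ • x with hs
  have hsB : ∀ u v, B (s u) (s v) = B u v := by
    intro u v
    rw [hs, LinearMap.smul_apply, LinearMap.smul_apply, map_smul, map_smul, LinearMap.smul_apply,
      hx, smul_eq_mul, smul_eq_mul, ← hz]
    field_simp
  have hxs : x = z • s := by
    rw [hs, smul_smul, mul_inv_cancel₀ hz0, one_smul]
  -- the scalars
  choose w hw using fun g : G => IsAlgClosed.exists_pow_nat_eq (χ g) (n := 2) (by norm_num)
  have hχ0 : ∀ g, χ g * χ g⁻¹ = 1 := fun g => by rw [← map_mul, mul_inv_cancel, map_one]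
  have hzero : ∀ g, ev b p (w g • s) = 0 := by
    intro g
    have h1 := vanish_sp b halt hnd hall (s := w g • (ρ g⁻¹ * s)) (fun u v => by
      rw [LinearMap.smul_apply, LinearMap.smul_apply, map_smul, map_smul, LinearMap.smul_apply,
        Module.End.mul_apply, Module.End.mul_apply, hB, hsB, smul_eq_mul, smul_eq_mul]
      linear_combination (χ g⁻¹ * B u v) * hw g + B u v * hχ0 g) _ hΦ h0 g
    rwa [mul_smul_comm, ← mul_assoc, ← map_mul, mul_inv_cancel, map_one, one_mul] at h1
  obtain ⟨n, a, d, r, v, hrep⟩ := PF_repr b hΦ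
  let q : Polynomial K := ∑ k, Polynomial.C (a k * ∏ j, b.repr (s (v k j)) (r k j)) *
    Polynomial.X ^ (d k)
  have hq : ∀ t : K, q.eval t = ev b p (t • s) := by
    intro t
    rw [hrep, Polynomial.eval_finsetSum]
    refine Finset.sum_congr rfl fun k _ => ?_
    rw [Polynomial.eval_mul, Polynomial.eval_C, Polynomial.eval_pow, Polynomial.eval_X]
    simp only [LinearMap.smul_apply, map_smul, Finsupp.smul_apply, smul_eq_mul]
    rw [Finset.prod_mul_distrib, Finset.prod_const, Finset.card_univ, Fintype.card_fin]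
    ring
  have hq0 : q = 0 := by
    refine Polynomial.eq_zero_of_infinite_isRoot q ?_
    have h1 : (Set.range w).Infinite := by
      intro hfin
      apply hχ
      refine (hfin.image fun z => z ^ 2).subset ?_
      rintro _ ⟨g, rfl⟩
      exact ⟨w g, ⟨g, rfl⟩, hw g⟩
    refine h1.mono ?_
    rintro _ ⟨g, rfl⟩
    change q.eval (w g) = 0
    rw [hq, hzero]
  rw [hxs, ← hq, hq0, Polynomial.eval_zero]

end

end Pool.Agent.TH118.ZC
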