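import Mathlib
import Pool.Agent.TH118.ZC.Index
import Pool.Agent.TH118.SC.Final

/-!
# The Zariski closure is the group of all similitudes
-/

set_option linter.unusedSectionVars false

namespace Pool.Agent.TH118.ZC

open Module Finset Function Pool.Agent.TH125.Gal Pool.Agent.TH118.SG

variable {K : Type} [Field K] [CharZero K] [IsAlgClosed K] {T : Type} [AddCommGroup T]
  [Module K T] [FiniteDimensional K T] {ι : Type} [Fintype ι] (b : Basis ι K T)
  {G : Type} [Group G] {ρ : G →* (T →ₗ[K] T)} {B : T →ₗ[K] T →ₗ[K] K} {χ : G →* K}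

/-- The image of a subgroup of finite index. -/
theorem infinite_image (hχ : (Set.range χ).Infinite) {Δ : Subgroup G} (hΔ : Δ.FiniteIndex) :
    (χ '' Δ).Infinite := by
  intro hfin
  apply hχ
  have := hΔ
  have : Fintype (G ⧸ Δ) := Subgroup.fintypeQuotientOfFiniteIndex
  have h1 : (⋃ q : G ⧸ Δ, (fun x => χ (Quotient.out q) * x) '' (χ '' Δ)).Finite :=
    Set.finite_iUnion fun q => hfin.image _
  refine h1.subset ?_
  rintro _ ⟨g, rfl⟩
  refine Set.mem_iUnion.2 ⟨(g : G ⧸ Δ), χ ((Quotient.out (g : G ⧸ Δ))⁻¹ * g),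
    ⟨_, QuotientGroup.leftRel_apply.1 (Quotient.exact (Quotient.out_eq (g : G ⧸ Δ))), rfl⟩, ?_⟩
  change χ (Quotient.out (g : G ⧸ Δ)) * χ ((Quotient.out (g : G ⧸ Δ))⁻¹ * g) = χ g
  rw [← map_mul, mul_inv_cancel_left]

/-- **The Zariski closure of a subgroup of finite index contains all similitudes.** -/
theorem sim_subset (halt : ∀ v, B v v = 0) (hnd : ∀ u, (∀ v, B u v = 0) → u = 0)
    (hB : ∀ g x y, B (ρ g x) (ρ g y) = χ g * B x y) (hχ : (Set.range χ).Infinite)
    (hall : ∀ (D : ℕ) (x y : T), Pool.Agent.H204R3.SP.SS B x y ∈ L0 B ρ (sig ρ b D))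
    {Δ : Subgroup G} (hΔ : Δ.FiniteIndex) : similitudes B ⊆ zariskiClosure b (ρ '' Δ) := by
  have hmul : ∀ x ∈ ρ '' Δ, ∀ y ∈ ρ '' Δ, x * y ∈ ρ '' Δ := by
    rintro _ ⟨g, hg, rfl⟩ _ ⟨g', hg', rfl⟩
    exact ⟨g * g', Δ.mul_mem hg hg', map_mul ρ g g'⟩
  have hN : ∀ (u : T) (D : ℕ), (B u).smulRight u ∈ L0 B ρ (sig ρ b D) := by
    intro u D
    have h1 := Submodule.smul_mem _ (2 : K)⁻¹ (hall D u u)
    have h2 : (2 : K)⁻¹ • Pool.Agent.H204R3.SP.SS B u u = (B u).smulRight u := by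
      rw [Pool.Agent.H204R3.SP.SS, ← two_smul K, smul_smul, inv_mul_cancel₀ two_ne_zero, one_smul]
    rwa [h2] at h1
  have hline : ∀ (u : T) (t : K), tv B u t ∈ zariskiClosure b (ρ '' Δ) := by
    intro u t
    refine line_index b hΔ (N := (B u).smulRight u) (fun t p hp => ?_) t
    have h1 := vanish_step b (N := (B u).smulRight u) (fun x => by
      rw [LinearMap.smulRight_apply, LinearMap.smulRight_apply, map_smul, halt, smul_zero,
        zero_smul]) (hN u) (ev_mem b p) (fun g => hp _ ⟨g, rfl⟩) t 1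
    rwa [map_one, one_mul] at h1
  have hsp : ∀ s : End K T, (∀ x y, B (s x) (s y) = B x y) → s ∈ zariskiClosure b (ρ '' Δ) := by
    intro s hs
    have hs' := sp_le_TM halt hnd hs
    clear hs
    induction hs' using Submonoid.closure_induction with
    | mem s hs =>
      obtain ⟨⟨u, t⟩, rfl⟩ := hs
      exact hline u t
    | one => exact subset_zc b _ ⟨1, Δ.one_mem, map_one ρ⟩
    | mul s s' _ _ h h' => exact zc_mul b hmul h h'
  rintro x ⟨c, hc0, hx⟩
  obtain ⟨z, hz⟩ := IsAlgClosed.exists_pow_nat_eq c (n := 2) (by norm_num)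
  have hz0 : z ≠ 0 := by
    rintro rfl
    apply hc0
    rw [← hz]
    norm_num
  set s : End K T := z⁻¹ • x with hs
  have hsB : ∀ u v, B (s u) (s v) = B u v := by
    intro u v
    rw [hs, LinearMap.smul_apply, LinearMap.smul_apply, map_smul, map_smul, LinearMap.smul_apply,
      hx, smul_eq_mul, smul_eq_mul, ← hz]
    field_simp
  have hxs : x = 0 + z • s := by
    rw [hs, smul_smul, mul_inv_cancel₀ hz0, one_smul, zero_add]
  choose w hw using fun g : G => IsAlgClosed.exists_pow_nat_eq (χ g) (n := 2) (by norm_num)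
  have hχ0 : ∀ g, χ g * χ g⁻¹ = 1 := fun g => by rw [← map_mul, mul_inv_cancel, map_one]
  rw [hxs]
  refine line_subset b (S := w '' Δ) ?_ ?_ z
  · intro hfin
    apply infinite_image hχ hΔ
    refine (hfin.image fun z => z ^ 2).subset ?_
    rintro _ ⟨g, hg, rfl⟩
    exact ⟨w g, ⟨g, hg, rfl⟩, hw g⟩
  · rintro _ ⟨g, hg, rfl⟩
    have h1 := hsp (w g • (ρ g⁻¹ * s)) (fun u v => by
      rw [LinearMap.smul_apply, LinearMap.smul_apply, map_smul, map_smul, LinearMap.smul_apply,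
        Module.End.mul_apply, Module.End.mul_apply, hB, hsB, smul_eq_mul, smul_eq_mul]
      linear_combination (χ g⁻¹ * B u v) * hw g + B u v * hχ0 g)
    have h2 := zc_mul b hmul (subset_zc b _ ⟨g, hg, rfl⟩) h1
    rwa [mul_smul_comm, ← mul_assoc, ← map_mul, mul_inv_cancel, map_one, one_mul,
      ← zero_add (w g • s)] at h2

/-- **The Zariski closure of the image, and of every group between the image and the group of all
similitudes.** -/
theorem closure_eq (halt : ∀ v, B v v = 0) (hnd : ∀ u, (∀ v, B u v = 0) → u = 0)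
    (hB : ∀ g x y, B (ρ g x) (ρ g y) = χ g * B x y) (hχ : (Set.range χ).Infinite)
    (hall : ∀ (D : ℕ) (x y : T), Pool.Agent.H204R3.SP.SS B x y ∈ L0 B ρ (sig ρ b D))
    {Δ : Subgroup G} (hΔ : Δ.FiniteIndex) {M : Set (End K T)} (h1 : ρ '' Δ ⊆ M)
    (h2 : M ⊆ similitudes B) : zariskiClosure b (ρ '' Δ) = zariskiClosure b M := by
  refine le_antisymm ?_ ?_
  · exact zc_mono b (h1.trans (subset_zc b M))
  · exact zc_mono b (h2.trans (sim_subset b halt hnd hB hχ hall hΔ))

/-- Some element has two eigenvalues whose quotient is not a root of unity. -/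
def HasHyperbolic (ρ : Representation K G T) : Prop :=
  ∃ (F : G) (x y : T) (l m : K), x ≠ 0 ∧ y ≠ 0 ∧ ρ F x = l • x ∧ ρ F y = m • y ∧
    ∀ k : ℕ, 0 < k → l ^ k ≠ m ^ k

/-- **Small inertia.** -/
theorem small_closure (halt : ∀ v, B v v = 0) (hnd : ∀ u, (∀ v, B u v = 0) → u = 0)
    (hB : ∀ g x y, B (ρ g x) (ρ g y) = χ g * B x y) (hχ : (Set.range χ).Infinite)
    (hX : Pool.Agent.W522.U.SI (X := T) ρ (⊤ : Submodule K T))
    (hin : Pool.Agent.TH118.SC.HasSmallInertia (X := T) ρ χ) (hF : HasHyperbolic (T := T) ρ)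
    {Δ : Subgroup G} (hΔ : Δ.FiniteIndex) {M : Set (End K T)} (h1 : ρ '' Δ ⊆ M)
    (h2 : M ⊆ similitudes B) : zariskiClosure b (ρ '' Δ) = zariskiClosure b M := by
  obtain ⟨γ, ⟨k, hk, hγ⟩, a, ha, hsim, hne, hsmall⟩ := hin
  obtain ⟨F, x, y, l, m, hx0, hy0, hx, hy, hlm⟩ := hF
  exact closure_eq b halt hnd hB hχ (fun D u v => small_all halt hnd hB hX hk hγ ha hsim hne hsmall
    F hx0 hy0 hx hy hlm u v) hΔ h1 h2

end Pool.Agent.TH118.ZC
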