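import Mathlib
import Pool.Agent.TH118.ZC.Main
import Pool.Agent.TH118.IS.Two

/-!
# Isolated pairs of eigenvalues, for any Lie algebra
-/

set_option linter.unusedSectionVars false

namespace Pool.Agent.TH118.ZC

open Module Finset Function Pool.Agent.TH125.Gal Pool.Agent.TH118.SG
open Pool.Agent.H204R3.SP Pool.Agent.H204R3.GP Pool.Agent.W522.U
open Pool.Agent.TH118.CR Pool.Agent.TH118.CU Pool.Agent.TH118.IS

section

variable {K : Type} [Field K] [CharZero K] [IsAlgClosed K] {X : Type} [AddCommGroup X]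
  [Module K X] [FiniteDimensional K X] {Γ : Type} [Group Γ] {R : Representation K Γ X}
  {χ : Γ →* K}

/-- The eigenvalues of `γ` are divided into two nonempty sets, `A` and its complement, both stable
under the duality `α ↦ χ(γ) / α`, such that for `α` in `A` and `β` in the complement at least one of
the two eigenspaces is one-dimensional, `β / α` is the quotient of no other pair of eigenvalues
except the dual pair, and geometric progressions of length three with the quotient `β / α` in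
the set of eigenvalues are self-dual, with one-dimensional outer eigenspaces. -/
def SplitsIsolated (R : Representation K Γ X) (χ : Γ →* K) (γ : Γ) : Prop :=
  ∃ A : Set K, (∃ α ∈ A, Module.End.eigenspace (R γ) α ≠ ⊥) ∧
    (∃ β ∉ A, Module.End.eigenspace (R γ) β ≠ ⊥) ∧
    (∀ α, Module.End.eigenspace (R γ) α ≠ ⊥ → (α ∈ A ↔ χ γ * α⁻¹ ∈ A)) ∧
    ∀ α ∈ A, ∀ β ∉ A, Module.End.eigenspace (R γ) α ≠ ⊥ → Module.End.eigenspace (R γ) β ≠ ⊥ →
      (finrank K (Module.End.eigenspace (R γ) α) = 1 ∨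
        finrank K (Module.End.eigenspace (R γ) β) = 1) ∧
      (∀ α', Module.End.eigenspace (R γ) α' ≠ ⊥ →
        Module.End.eigenspace (R γ) (α' * (β * α⁻¹)) ≠ ⊥ → α' = α ∨ α' * β = χ γ) ∧
      ∀ α', Module.End.eigenspace (R γ) α' ≠ ⊥ →
        Module.End.eigenspace (R γ) (α' * (β * α⁻¹)) ≠ ⊥ →
        Module.End.eigenspace (R γ) (α' * (β * α⁻¹) * (β * α⁻¹)) ≠ ⊥ →
        finrank K (Module.End.eigenspace (R γ) α') = 1 ∧
          α' * (α' * (β * α⁻¹) * (β * α⁻¹)) = χ γ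

variable {ω : X →ₗ[K] X →ₗ[K] K} {γ : Γ} {k : ℕ}

/-- The square of a skew operator is zero if all chains are self-dual. -/
theorem sq_zero' (halt : ∀ v, ω v v = 0) (hωR : ∀ g u v, ω (R g u) (R g v) = χ g * ω u v)
    (hk : 0 < k) (hγ : R γ ^ k = 1) (hnd : ∀ u, (∀ v, ω u v = 0) → u = 0) {N : End K X}
    (hsk : ∀ u w, ω (N u) w + ω u (N w) = 0) {ν : K}
    (hN : ∀ α, ∀ u ∈ eig R γ ⊤ α, N u ∈ eig R γ ⊤ (α * ν))
    (h : ∀ α, eig R γ ⊤ α ≠ ⊥ → eig R γ ⊤ (α * ν) ≠ ⊥ → eig R γ ⊤ (α * ν * ν) ≠ ⊥ →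
      finrank K (eig R γ ⊤ α) = 1 ∧ α * (α * ν * ν) = χ γ) :
    ∀ u, N (N u) = 0 := by
  intro u
  have hγU : ∀ u ∈ (⊤ : Submodule K X), R γ u ∈ (⊤ : Submodule K X) := fun u _ => Submodule.mem_top
  have hndU : ∀ u ∈ (⊤ : Submodule K X), (∀ v ∈ (⊤ : Submodule K X), ω u v = 0) → u = 0 :=
    fun u _ h => hnd u fun v => h v Submodule.mem_top
  have hu : u ∈ (⊤ : Submodule K X) := Submodule.mem_top
  rw [← part_univ hk hγ hγU, part] at hu
  induction hu using Submodule.iSup_induction' with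
  | mem α u hu =>
    by_cases h0 : N u = 0
    · rw [h0, map_zero]
    have hu0 : u ≠ 0 := by
      rintro rfl
      exact h0 (map_zero _)
    have h1 : eig R γ ⊤ α.1 ≠ ⊥ := by
      intro h2
      rw [h2, Submodule.mem_bot] at hu
      exact hu0 hu
    have h3 := hN _ u hu
    have h2 : eig R γ ⊤ (α.1 * ν) ≠ ⊥ := by
      intro h2
      apply h0
      rwa [h2, Submodule.mem_bot] at h3
    have h4 := hN _ _ h3
    by_cases h5 : eig R γ ⊤ (α.1 * ν * ν) = ⊥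
    · rwa [h5, Submodule.mem_bot] at h4
    obtain ⟨h6, h7⟩ := h α.1 h1 h2 h5
    refine zero_of_dual hωR hk hγ hγU hndU h4 fun β hβ w hw => ?_
    have h8 : β = α.1 := by
      have h9 : α.1 * ν * ν * (β - α.1) = 0 := by linear_combination hβ - h7
      exact sub_eq_zero.1 ((mul_eq_zero.1 h9).resolve_left (eig_ne h5))
    subst h8
    obtain ⟨c, hc⟩ := (finrank_eq_one_iff_of_nonzero' (⟨u, hu⟩ : eig R γ ⊤ α.1)
      (fun h => hu0 (congrArg Subtype.val h))).1 h6 ⟨w, hw⟩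
    have hc' : c • u = w := congrArg Subtype.val hc
    have h9 := hsk (N u) u
    rw [halt, add_zero] at h9
    rw [← hc', map_smul, h9, smul_zero]
  | zero => rw [map_zero, map_zero]
  | add u v _ _ h1 h2 => rw [map_add, map_add, h1, h2, add_zero]

/-- Isolated pairs give a nilpotent element of rank at most two. -/
theorem iso_N (halt : ∀ v, ω v v = 0) (hωR : ∀ g u v, ω (R g u) (R g v) = χ g * ω u v)
    (hnd : ∀ u, (∀ v, ω u v = 0) → u = 0) (hk : 0 < k) (hγ : R γ ^ k = 1)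
    (hX : SI R (⊤ : Submodule K X)) {L : Submodule K (End K X)}
    (hconj : ∀ g : Γ, ∀ Y ∈ L, R g * Y * R g⁻¹ ∈ L)
    (hns : ∃ Y ∈ L, ¬∃ a : K, ∀ u, Y u = a • u)
    (hsk : ∀ ν : K, ν ≠ 1 → ∀ N ∈ Lnu R L γ ν, ∀ u w, ω (N u) w + ω u (N w) = 0)
    (hiso : SplitsIsolated R χ γ) :
    ∃ ν : K, ν ≠ 1 ∧ ∃ N ∈ Lnu R L γ ν, N * N = 0 ∧ N ≠ 0 ∧
      finrank K ((⊤ : Submodule K X).map N) ≤ 2 := by
  have heig : ∀ α, Module.End.eigenspace (R γ) α = eig R γ ⊤ α := fun α => (top_inf_eq _).symm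
  have hfr : ∀ α, finrank K (Module.End.eigenspace (R γ) α) = finrank K (eig R γ ⊤ α) := by
    intro α
    rw [heig]
  unfold SplitsIsolated at hiso
  simp only [hfr, heig] at hiso
  obtain ⟨A, hA, hB, hdual, h1⟩ := hiso
  set U : Submodule K X := ⊤ with hU
  have hγU : ∀ u ∈ U, R γ u ∈ U := fun u _ => Submodule.mem_top
  have hγU' : ∀ u ∈ U, R γ⁻¹ u ∈ U := fun u _ => Submodule.mem_top
  have hndU : ∀ u ∈ U, (∀ v ∈ U, ω u v = 0) → u = 0 :=
    fun u _ h => hnd u fun v => h v Submodule.mem_top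
  have hχ : χ γ ≠ 0 := χne γ
  -- the rank
  have hrk : ∀ α ∈ A, ∀ β ∉ A, eig R γ U α ≠ ⊥ → eig R γ U β ≠ ⊥ → ∀ T : End K X,
      (∀ u ∈ U, T u ∈ U) →
      (finrank K ((part R γ U A).map (avg R γ k (β * α⁻¹) T)) ≤ 1 ∧
      finrank K ((part R γ U Aᶜ).map (avg R γ k (β * α⁻¹) T)) ≤ 1) ∧
      (finrank K ((part R γ U A).map (avg R γ k (α * β⁻¹) T)) ≤ 1 ∧
      finrank K ((part R γ U Aᶜ).map (avg R γ k (α * β⁻¹) T)) ≤ 1) := by
    intro α hα β hβ hα0 hβ0 T hT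
    obtain ⟨hl, huniq, -⟩ := h1 α hα β hβ hα0 hβ0
    have hα1 := eig_ne hα0
    have hβ1 := eig_ne hβ0
    have hαk := eig_root hγ hα0
    have hβk := eig_root hγ hβ0
    have hν : (β * α⁻¹) ^ k = 1 := by rw [mul_pow, inv_pow, hαk, hβk, inv_one, mul_one]
    have hν' : (α * β⁻¹) ^ k = 1 := by rw [mul_pow, inv_pow, hαk, hβk, inv_one, mul_one]
    have hν0 : β * α⁻¹ ≠ 0 := mul_ne_zero hβ1 (inv_ne_zero hα1)
    have hν0' : α * β⁻¹ ≠ 0 := mul_ne_zero hα1 (inv_ne_zero hβ1)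
    have hdα := finrank_dual hωR hk hγ (hγU) (hndU) hα1
    have hdβ := finrank_dual hωR hk hγ (hγU) (hndU) hβ1
    have hβA : χ γ * β⁻¹ ∉ A := fun h => hβ ((hdual β hβ0).2 h)
    have hαA : χ γ * α⁻¹ ∈ A := (hdual α hα0).1 hα
    have hsol : ∀ x y : K, y ≠ 0 → x * y = χ γ → x = χ γ * y⁻¹ := by
      intro x y hy h
      rw [← h, mul_inv_cancel_right₀ hy]
    have huniq' : ∀ α', eig R γ U α' ≠ ⊥ → eig R γ U (α' * (α * β⁻¹)) ≠ ⊥ →
        α' = β ∨ α' = χ γ * α⁻¹ := by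
      intro α' h2 h3
      have e3 : α' * (α * β⁻¹) * (β * α⁻¹) = α' := by field_simp
      rcases huniq (α' * (α * β⁻¹)) h3 (by rwa [e3]) with h4 | h4
      · left
        rw [← e3, h4]
        field_simp
      · right
        refine hsol _ _ hα1 ?_
        rw [← h4]
        field_simp
    refine ⟨⟨?_, ?_⟩, ?_, ?_⟩
    · refine finrank_part hγ (hγU) hγU' hT hν hν0 (a := α) (fun α' hα' h2 h3 => ?_) ?_
      · rcases huniq α' h2 h3 with h4 | h4
        · exact h4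
        · exact absurd hα' (by rw [hsol _ _ hβ1 h4]; exact hβA)
      · rw [show α * (β * α⁻¹) = β by field_simp]
        rcases hl with h | h
        · exact Or.inl h.le
        · exact Or.inr h.le
    · refine finrank_part hγ (hγU) hγU' hT hν hν0 (a := χ γ * β⁻¹) (fun α' hα' h2 h3 => ?_) ?_
      · rcases huniq α' h2 h3 with h4 | h4
        · exact absurd (by rw [h4]; exact hα) hα'
        · exact hsol _ _ hβ1 h4
      · rw [show χ γ * β⁻¹ * (β * α⁻¹) = χ γ * α⁻¹ by field_simp, hdα, hdβ]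
        rcases hl with h | h
        · exact Or.inr h.le
        · exact Or.inl h.le
    · refine finrank_part hγ (hγU) hγU' hT hν' hν0' (a := χ γ * α⁻¹)
        (fun α' hα' h2 h3 => ?_) ?_
      · rcases huniq' α' h2 h3 with h4 | h4
        · exact absurd hα' (by rw [h4]; exact hβ)
        · exact h4
      · rw [show χ γ * α⁻¹ * (α * β⁻¹) = χ γ * β⁻¹ by field_simp, hdα, hdβ]
        rcases hl with h | h
        · exact Or.inl h.le
        · exact Or.inr h.le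
    · refine finrank_part hγ (hγU) hγU' hT hν' hν0' (a := β) (fun α' hα' h2 h3 => ?_) ?_
      · rcases huniq' α' h2 h3 with h4 | h4
        · exact h4
        · exact absurd (by rw [h4]; exact hαA) hα'
      · rw [show β * (α * β⁻¹) = α by field_simp]
        rcases hl with h | h
        · exact Or.inr h.le
        · exact Or.inl h.le
  obtain ⟨α, hα, β, hβ, hα0, hβ0, Y, hY, hor⟩ := split' hX L hconj
    (fun _ _ u _ => Submodule.mem_top) (by
      obtain ⟨Y, hY, h⟩ := hns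
      exact ⟨Y, hY, fun ⟨a, ha⟩ => h ⟨a, fun u => ha u Submodule.mem_top⟩⟩) hk hγ hγU hγU' A hA hB
    (fun α hα β hβ h2 h3 T hT P hP => by
      have h4 := hrk α hα β hβ h2 h3 T hT
      rcases hP with rfl | rfl
      · exact ⟨h4.1.1, h4.2.1⟩
      · exact ⟨h4.1.2, h4.2.2⟩)
  have hα1 := eig_ne hα0
  have hβ1 := eig_ne hβ0
  have hαk := eig_root hγ hα0
  have hβk := eig_root hγ hβ0
  have hαβ : α ≠ β := fun h => hβ (h ▸ hα)
  have hν : (β * α⁻¹) ^ k = 1 := by rw [mul_pow, inv_pow, hαk, hβk, inv_one, mul_one]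
  have hν' : (α * β⁻¹) ^ k = 1 := by rw [mul_pow, inv_pow, hαk, hβk, inv_one, mul_one]
  have hν0 : β * α⁻¹ ≠ 0 := mul_ne_zero hβ1 (inv_ne_zero hα1)
  have hν0' : α * β⁻¹ ≠ 0 := mul_ne_zero hα1 (inv_ne_zero hβ1)
  have hν1 : β * α⁻¹ ≠ 1 := fun h => hαβ (by
    rw [mul_inv_eq_one₀ hα1] at h
    exact h.symm)
  have hν1' : α * β⁻¹ ≠ 1 := fun h => hαβ (by
    rwa [mul_inv_eq_one₀ hβ1] at h)
  have hch := (h1 α hα β hβ hα0 hβ0).2.2
  have h4 := hrk α hα β hβ hα0 hβ0 Y (fun u _ => Submodule.mem_top)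
  have hfin : ∀ ν : K, ν ^ k = 1 → ν ≠ 0 → ν ≠ 1 →
      (∀ α', eig R γ U α' ≠ ⊥ → eig R γ U (α' * ν) ≠ ⊥ → eig R γ U (α' * ν * ν) ≠ ⊥ →
        finrank K (eig R γ U α') = 1 ∧ α' * (α' * ν * ν) = χ γ) →
      (∃ u ∈ U, avg R γ k ν Y u ≠ 0) →
      finrank K ((part R γ U A).map (avg R γ k ν Y)) ≤ 1 →
      finrank K ((part R γ U Aᶜ).map (avg R γ k ν Y)) ≤ 1 →
      ∃ ν : K, ν ≠ 1 ∧ ∃ N ∈ Lnu R L γ ν, N * N = 0 ∧ N ≠ 0 ∧
        finrank K ((⊤ : Submodule K X).map N) ≤ 2 := by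
    rintro ν hνk hν0 hν1 hc ⟨u, -, hu⟩ hr1 hr2
    have hNL : avg R γ k ν Y ∈ Lnu R L γ ν := avg_Lnu hconj hγ hνk hν0 hY
    refine ⟨ν, hν1, _, hNL, LinearMap.ext fun u => ?_, fun h => hu (by rw [h]; rfl), ?_⟩
    · exact sq_zero' halt hωR hk hγ hnd (hsk ν hν1 _ hNL) (fun α u hu => Lnu_maps hNL hu) hc u
    · change finrank K (U.map (avg R γ k ν Y)) ≤ 2
      have h5 : U.map (avg R γ k ν Y) ≤ (part R γ U A).map (avg R γ k ν Y) ⊔
          (part R γ U Aᶜ).map (avg R γ k ν Y) := by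
        rintro _ ⟨u, hu, rfl⟩
        obtain ⟨a, ha, b, hb, rfl⟩ := Submodule.mem_sup.1 (sup_part (A := A) hk hγ hγU hu)
        rw [map_add]
        exact Submodule.add_mem_sup (Submodule.mem_map_of_mem ha) (Submodule.mem_map_of_mem hb)
      have h6 := Submodule.finrank_mono h5
      have h7 := Submodule.finrank_add_le_finrank_add_finrank
        ((part R γ U A).map (avg R γ k ν Y)) ((part R γ U Aᶜ).map (avg R γ k ν Y))
      omega
  rcases hor with hor | hor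
  · exact hfin _ hν hν0 hν1 hch hor h4.1.1 h4.1.2
  · refine hfin _ hν' hν0' hν1' ?_ hor h4.2.1 h4.2.2
    have h2 := dualChain_inv hωR hk hγ hγU hndU hν0 hch
    rwa [mul_inv, inv_inv, mul_comm β⁻¹] at h2

end

variable {K : Type} [Field K] [CharZero K] [IsAlgClosed K] {T : Type} [AddCommGroup T]
  [Module K T] [FiniteDimensional K T] {E : Type} [AddCommGroup E] [Module K E]
  [FiniteDimensional K E] {G : Type} [Group G]
  {B : T →ₗ[K] T →ₗ[K] K} {ρ : G →* (T →ₗ[K] T)} {σ : G →* (E →ₗ[K] E)} {χ : G →* K}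

/-- **The whole symplectic Lie algebra, isolated pairs.** -/
theorem iso_all (halt : ∀ v, B v v = 0) (hnd : ∀ u, (∀ v, B u v = 0) → u = 0)
    (hB : ∀ g x y, B (ρ g x) (ρ g y) = χ g * B x y)
    (hX : Pool.Agent.W522.U.SI (X := T) ρ (⊤ : Submodule K T))
    {γ : G} {k : ℕ} (hk : 0 < k) (hγ : ρ γ ^ k = 1) (hiso : SplitsIsolated (X := T) ρ χ γ)
    (F : G) {u v : T} (hu0 : u ≠ 0) (hv0 : v ≠ 0) {al be : K}
    (hu : ρ F u = al • u) (hv : ρ F v = be • v) (hab : ∀ k : ℕ, 0 < k → al ^ k ≠ be ^ k)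
    (x y : T) : Pool.Agent.H204R3.SP.SS B x y ∈ L0 B ρ σ := by
  have hB0 : ∃ y, B u y ≠ 0 := by
    by_contra hcon
    push Not at hcon
    exact hu0 (hnd u hcon)
  obtain ⟨Y, hY, hYn⟩ := exists_PA (σ := σ) (χ := χ) hB F hu0 hv0 hu hv hab
  obtain ⟨ν, hν, N, hN, hN2, hN0, hNr⟩ := iso_N (R := ρ) (χ := χ) (L := LA B ρ σ) halt hB hnd hk hγ
    hX (LA_conj (χ := χ) hB) ⟨Y, hY, hYn⟩
    (fun ν hν N hN => L0_skew N (L0_of_Lnu (χ := χ) hB ⟨u, hB0⟩ hν hN)) hiso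
  exact full_of_N (R := ρ) (χ := χ) halt hnd hB (L0_conj hB) L0_bracket L0_skew hX
    (L0_of_Lnu (χ := χ) hB ⟨u, hB0⟩ hν hN) hN2 hN0 hNr x y

/-- There is an element of finite order whose eigenvalues split in an isolated way. -/
def HasIsolatedPair (ρ : Representation K G T) (χ : G →* K) : Prop :=
  ∃ γ : G, (∃ k : ℕ, 0 < k ∧ ρ γ ^ k = 1) ∧ SplitsIsolated ρ χ γ

/-- **Isolated pairs.** -/
theorem iso_closure {ι : Type} [Fintype ι] (b : Basis ι K T) (halt : ∀ v, B v v = 0)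
    (hnd : ∀ u, (∀ v, B u v = 0) → u = 0)
    (hB : ∀ g x y, B (ρ g x) (ρ g y) = χ g * B x y) (hχ : (Set.range χ).Infinite)
    (hX : Pool.Agent.W522.U.SI (X := T) ρ (⊤ : Submodule K T))
    (hin : HasIsolatedPair (T := T) ρ χ) (hF : HasHyperbolic (T := T) ρ)
    {Δ : Subgroup G} (hΔ : Δ.FiniteIndex) {M : Set (End K T)} (h1 : ρ '' Δ ⊆ M)
    (h2 : M ⊆ similitudes B) : zariskiClosure b (ρ '' Δ) = zariskiClosure b M := by
  obtain ⟨γ, ⟨k, hk, hγ⟩, hiso⟩ := hin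
  obtain ⟨F, x, y, l, m, hx0, hy0, hx, hy, hlm⟩ := hF
  exact closure_eq b halt hnd hB hχ (fun D u v => iso_all halt hnd hB hX hk hγ hiso
    F hx0 hy0 hx hy hlm u v) hΔ h1 h2

end Pool.Agent.TH118.ZC
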