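import Mathlib
import Pool.Agent.TH118.ZC.Iso

/-!
# Direct sums: the Lie algebra contains the symplectic Lie algebra of the first summand
-/

set_option linter.unusedSectionVars false

namespace Pool.Agent.TH118.ZC

open Module Finset Function Pool.Agent.TH125.Gal Pool.Agent.TH118.SG
open Pool.Agent.TH118.IS (eig eig_root eig_ne)
open Pool.Agent.TH118.CR (avg)

section comm

variable {K : Type} [Field K] [CharZero K] [IsAlgClosed K] {T : Type} [AddCommGroup T]
  [Module K T] [FiniteDimensional K T] {ι : Type} [Fintype ι] (b : Basis ι K T)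
  {G : Type} [Group G] {ρ : G →* (T →ₗ[K] T)} {B : T →ₗ[K] T →ₗ[K] K}

/-- The operators of the Lie algebra commute with the operators that commute with the group. -/
theorem LA_comm {D : ℕ} {Y : End K T} (hY : Y ∈ LA B ρ (sig ρ b (D + 1))) {p : End K T}
    (hp : ∀ g x, p (ρ g x) = ρ g (p x)) (x : T) : p (Y x) = Y (p x) := by
  obtain ⟨c, Y', hY⟩ := mem_LA.1 hY
  have h1D : 1 ≤ D + 1 := by omega
  have hc : ∀ (i : ι) (v : T), coefD ρ b h1D (fun _ : Fin 1 => i) (fun _ => Y v) =
      Y' (coefD ρ b h1D (fun _ : Fin 1 => i) fun _ => v) := by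
    intro i v
    have h1 := (mem_PP.1 (mem_PA.1 hY 1)).2 _ (eqv_coefD ρ b h1D fun _ : Fin 1 => i) fun _ => v
    rw [Fin.sum_univ_one] at h1
    rw [← h1]
    congr 1
    funext j
    rw [Subsingleton.elim j 0, update_self]
  have hpc : ∀ (i : ι) (v : T), coefD ρ b h1D (fun _ : Fin 1 => i) (fun _ => p v) =
      ∑ j, b.repr (p (b j)) i • coefD ρ b h1D (fun _ : Fin 1 => j) (fun _ => v) := by
    intro i v
    apply Subtype.ext
    funext g
    rw [Submodule.coe_sum, Finset.sum_apply]
    simp only [Submodule.coe_smul, Pi.smul_apply, coefD_apply, coefm_apply, smul_eq_mul,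
      Finset.univ_unique, Finset.prod_singleton]
    rw [← hp]
    conv_lhs => rw [← b.sum_repr (ρ g v)]
    rw [map_sum, map_sum, Finsupp.finsetSum_apply]
    refine Finset.sum_congr rfl fun j _ => ?_
    rw [map_smul, map_smul, Finsupp.smul_apply, smul_eq_mul, mul_comm]
  have h2 : ∀ i, coefD ρ b h1D (fun _ : Fin 1 => i) (fun _ => p (Y x)) =
      coefD ρ b h1D (fun _ : Fin 1 => i) (fun _ => Y (p x)) := by
    intro i
    rw [hpc, hc, hpc, map_sum]
    refine Finset.sum_congr rfl fun j _ => ?_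
    rw [map_smul, hc]
  refine b.repr.injective (Finsupp.ext fun i => ?_)
  have h3 := congrFun (congrArg Subtype.val (h2 i)) 1
  simp only [coefD_apply, coefm_apply, Finset.univ_unique, Finset.prod_singleton, map_one,
    Module.End.one_apply] at h3
  exact h3

end comm

variable {K : Type} [Field K] [CharZero K] [IsAlgClosed K] {M : Type} [AddCommGroup M]
  [Module K M] [FiniteDimensional K M] {N : Type} [AddCommGroup N]
  [Module K N] [FiniteDimensional K N] {ι : Type} [Fintype ι] (b : Basis ι K (M × N))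
  {G : Type} [Group G] (R : G →* (M →ₗ[K] M)) (S : G →* (N →ₗ[K] N))

/-- The direct sum of two representations. -/
def dsum : G →* ((M × N) →ₗ[K] (M × N)) where
  toFun g := (R g).prodMap (S g)
  map_one' := by
    rw [map_one, map_one]
    exact LinearMap.prodMap_one
  map_mul' g h := by
    rw [map_mul, map_mul]
    apply LinearMap.ext
    rintro ⟨m, n⟩
    rfl

theorem dsum_apply (g : G) (x : M × N) : dsum R S g x = (R g x.1, S g x.2) := rfl

/-- The form on the direct sum. -/
def fB (ω : M →ₗ[K] M →ₗ[K] K) : (M × N) →ₗ[K] (M × N) →ₗ[K] K :=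
  ω.compl₁₂ (LinearMap.fst K M N) (LinearMap.fst K M N)

theorem fB_apply (ω : M →ₗ[K] M →ₗ[K] K) (x y : M × N) : fB ω x y = ω x.1 y.1 := rfl

/-- The restriction to the first summand. -/
def res : End K (M × N) →ₗ[K] End K M where
  toFun Y := (LinearMap.fst K M N) ∘ₗ Y ∘ₗ (LinearMap.inl K M N)
  map_add' X Y := by
    apply LinearMap.ext
    intro m
    rfl
  map_smul' c X := by
    apply LinearMap.ext
    intro m
    rfl

theorem res_apply (Y : End K (M × N)) (m : M) : res Y m = (Y (m, 0)).1 := rfl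

/-- The extension by zero. -/
def exz : End K M →ₗ[K] End K (M × N) where
  toFun Z := Z.prodMap 0
  map_add' X Y := by
    apply LinearMap.ext
    intro m
    simp [LinearMap.prodMap_apply]
  map_smul' c X := by
    apply LinearMap.ext
    intro m
    simp [LinearMap.prodMap_apply]

theorem exz_apply (Z : End K M) (x : M × N) : exz Z x = (Z x.1, 0) := rfl

variable {R S} {ω : M →ₗ[K] M →ₗ[K] K} {χ : G →* K}

/-- The elements of the Lie algebra that are zero on the second summand. -/
noncomputable def LM (R : G →* (M →ₗ[K] M)) (S : G →* (N →ₗ[K] N)) (ω : M →ₗ[K] M →ₗ[K] K)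
    (b : Basis ι K (M × N)) (D : ℕ) : Submodule K (End K M) :=
  (L0 (fB ω) (dsum R S) (sig (dsum R S) b (D + 1))).comap exz

theorem mem_LM {D : ℕ} {Z : End K M} : Z ∈ LM R S ω b D ↔
    exz Z ∈ L0 (fB ω) (dsum R S) (sig (dsum R S) b (D + 1)) := Iff.rfl

variable (hω : ∀ g x y, ω (R g x) (R g y) = χ g * ω x y)

include hω in
theorem hfB (g : G) (x y : M × N) : fB ω (dsum R S g x) (dsum R S g y) = χ g * fB ω x y :=
  hω g x.1 y.1

include hω in
theorem LM_conj {D : ℕ} (g : G) : ∀ Z ∈ LM R S ω b D, R g * Z * R g⁻¹ ∈ LM R S ω b D := by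
  intro Z hZ
  have h1 := L0_conj (χ := χ) (hfB hω) g _ hZ
  have h2 : dsum R S g * exz Z * dsum R S g⁻¹ = exz (R g * Z * R g⁻¹) := by
    apply LinearMap.ext
    rintro ⟨m, n⟩
    simp only [Module.End.mul_apply, dsum_apply, exz_apply, map_zero]
  rw [h2] at h1
  exact h1

theorem LM_bracket {D : ℕ} : ∀ Y ∈ LM R S ω b D, ∀ Z ∈ LM R S ω b D,
    Y * Z - Z * Y ∈ LM R S ω b D := by
  intro Y hY Z hZ
  have h1 := L0_bracket _ hY _ hZ
  have h2 : exz Y * exz Z - exz Z * exz Y = (exz (Y * Z - Z * Y) : End K (M × N)) := by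
    apply LinearMap.ext
    rintro ⟨m, n⟩
    simp only [Module.End.mul_apply, exz_apply, LinearMap.sub_apply, Prod.mk_sub_mk, sub_zero]
  rw [h2] at h1
  exact h1

theorem LM_skew {D : ℕ} : ∀ Y ∈ LM R S ω b D, ∀ u w, ω (Y u) w + ω u (Y w) = 0 := by
  intro Y hY u w
  exact L0_skew _ hY (u, 0) (w, 0)

/-- The average of an element which is already an eigenvector. -/
theorem avg_of_Lnu {γ : G} {L : Submodule K (End K M)} {ν : K} (hν0 : ν ≠ 0) {Z : End K M}
    (hZ : Z ∈ Lnu (R := R) L γ ν) (k : ℕ) : avg R γ k ν Z = (k : K) • Z := by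
  have h1 : ∀ t : ℕ, R (γ ^ t) * Z * R (γ ^ t)⁻¹ = ν ^ t • Z := by
    intro t
    have h2 : ∀ (t : ℕ) (u : M), R (γ ^ t) (Z u) = ν ^ t • Z (R (γ ^ t) u) := by
      intro t
      induction t with
      | zero => intro u; simp
      | succ t ih =>
        intro u
        rw [pow_succ, map_mul, Module.End.mul_apply, hZ.2, map_smul, ih, smul_smul, pow_succ,
          Module.End.mul_apply, mul_comm]
    apply LinearMap.ext
    intro u
    rw [Module.End.mul_apply, Module.End.mul_apply, h2, ← Module.End.mul_apply (R (γ ^ t)),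
      ← map_mul, mul_inv_cancel, map_one]
    rfl
  rw [avg, Finset.sum_congr rfl fun t _ => by
    rw [h1, smul_smul, ← mul_pow, inv_mul_cancel₀ hν0, one_pow, one_smul], Finset.sum_const,
    Finset.card_range, Nat.cast_smul_eq_nsmul]

include hω in
/-- From the restriction to the elements that are zero on the second summand. -/
theorem LM_of_Lnu (hω0 : ∃ x y, ω x y ≠ 0) {γ : G} (hS : S γ = 1) {k : ℕ} (hk : 0 < k)
    (hγ : R γ ^ k = 1) {D : ℕ} {ν : K} (hν : ν ≠ 1) (hν0 : ν ≠ 0) (hνk : ν ^ k = 1)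
    {Z : End K M}
    (hZ : Z ∈ Lnu (R := R) ((LA (fB ω) (dsum R S) (sig (dsum R S) b (D + 1))).map res) γ ν) :
    Z ∈ LM R S ω b D := by
  obtain ⟨Y, hY, hYZ⟩ := Submodule.mem_map.1 hZ.1
  have hγT : dsum R S γ ^ k = 1 := by
    rw [← map_pow]
    apply LinearMap.ext
    rintro ⟨m, n⟩
    rw [dsum_apply, map_pow, map_pow, hγ, hS, one_pow]
    rfl
  have hconj : ∀ g : G, ∀ Y ∈ LA (fB ω) (dsum R S) (sig (dsum R S) b (D + 1)),
      dsum R S g * Y * dsum R S g⁻¹ ∈ LA (fB ω) (dsum R S) (sig (dsum R S) b (D + 1)) :=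
    LA_conj (χ := χ) (hfB hω)
  have hN : avg (dsum R S) γ k ν Y ∈ Lnu (R := dsum R S)
      (LA (fB ω) (dsum R S) (sig (dsum R S) b (D + 1))) γ ν :=
    avg_Lnu (R := dsum R S) hconj hγT hνk hν0 hY
  have hB0 : ∃ x y : M × N, fB ω x y ≠ 0 := by
    obtain ⟨x, y, hxy⟩ := hω0
    exact ⟨(x, 0), (y, 0), hxy⟩
  have hN0 : avg (dsum R S) γ k ν Y ∈ L0 (fB ω) (dsum R S) (sig (dsum R S) b (D + 1)) :=
    L0_of_Lnu (χ := χ) (hfB hω) hB0 hν hN
  set W := avg (dsum R S) γ k ν Y with hW
  -- the restriction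
  have hres : ∀ m, (W (m, 0)).1 = (k : K) • Z m := by
    intro m
    have h1 := avg_of_Lnu hν0 hZ k
    have h2 := congrArg (fun f : End K M => f m) h1
    rw [LinearMap.smul_apply] at h2
    rw [← h2, ← hYZ, hW, avg, avg, LinearMap.sum_apply, LinearMap.sum_apply, Prod.fst_sum]
    refine Finset.sum_congr rfl fun t _ => ?_
    rw [LinearMap.smul_apply, LinearMap.smul_apply, Module.End.mul_apply, Module.End.mul_apply,
      Module.End.mul_apply, Module.End.mul_apply, dsum_apply, dsum_apply, res_apply, map_zero]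
    rfl
  have hfst := LA_comm b (p := exz (1 : End K M)) hN.1 (fun g x => by
    rw [dsum_apply, exz_apply, exz_apply, dsum_apply, map_zero]
    rfl)
  have h1 : ∀ x : M × N, W x = ((k : K) • Z x.1, 0) := by
    rintro ⟨m, n⟩
    have h3 : W (m, 0) = ((k : K) • Z m, 0) := by
      have h4 := hfst (m, 0)
      rw [exz_apply, exz_apply] at h4
      refine Prod.ext (hres m) ?_
      have h5 := congrArg Prod.snd h4
      exact h5.symm
    have h4 : W (0, n) = 0 := by
      have h5 := hfst (0, n)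
      have h6 : (exz (1 : End K M) : End K (M × N)) (0, n) = 0 := rfl
      rw [h6, map_zero] at h5
      have h7 : (W (0, n)).1 = 0 := congrArg Prod.fst h5
      have h8 := hN.2 (0, n)
      have h9 : dsum R S γ (0, n) = (0, n) := by
        rw [dsum_apply, map_zero, hS]
        rfl
      rw [h9] at h8
      have h10 := congrArg Prod.snd h8
      rw [dsum_apply, hS] at h10
      have h11 : (1 - ν) • (W (0, n)).2 = 0 := by
        rw [sub_smul, one_smul, sub_eq_zero]
        exact h10
      exact Prod.ext h7 ((smul_eq_zero.1 h11).resolve_left (sub_ne_zero.2 (Ne.symm hν)))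
    have h5 : ((m, n) : M × N) = (m, 0) + (0, n) := by
      rw [Prod.mk_add_mk, add_zero, zero_add]
    rw [h5, map_add, h3, h4, add_zero]
    simp
  have h2 : W = (k : K) • exz Z := by
    apply LinearMap.ext
    intro x
    rw [h1, LinearMap.smul_apply, exz_apply, Prod.smul_mk, smul_zero]
  rw [h2] at hN0
  have h3 := Submodule.smul_mem _ (k : K)⁻¹ hN0
  rw [smul_smul, inv_mul_cancel₀ (Nat.cast_ne_zero.2 hk.ne'), one_smul] at h3
  exact h3

end Pool.Agent.TH118.ZC
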