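import Mathlib
import Pool.Agent.TH118.ZC.Sum

/-!
# Direct sums: the Zariski closure
-/

set_option linter.unusedSectionVars false

namespace Pool.Agent.TH118.ZC

open Module Finset Function Pool.Agent.TH125.Gal Pool.Agent.TH118.SG
open Pool.Agent.TH118.IS (eig eig_root eig_ne)
open Pool.Agent.TH118.CR (avg)

section pairs

variable {K : Type} [Field K] [CharZero K] [IsAlgClosed K] {T : Type} [AddCommGroup T]
  [Module K T] [FiniteDimensional K T] {E : Type} [AddCommGroup E] [Module K E]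
  [FiniteDimensional K E] {G : Type} [Group G]
  {B : T →ₗ[K] T →ₗ[K] K} {ρ : G →* (T →ₗ[K] T)} {σ : G →* (E →ₗ[K] E)} {χ : G →* K}

/-- The operator attached to an element of the group, with its eigenvalues. -/
theorem exists_PA' (hB : ∀ g x y, B (ρ g x) (ρ g y) = χ g * B x y) (F : G) {u v : T}
    (hu0 : u ≠ 0) (hv0 : v ≠ 0) {al be : K}
    (hu : ρ F u = al • u) (hv : ρ F v = be • v) (hab : ∀ k : ℕ, 0 < k → al ^ k ≠ be ^ k) :
    ∃ Y ∈ LA B ρ σ, ∃ s t : K, s ≠ t ∧ Y u = s • u ∧ Y v = t • v := by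
  have hinj : Function.Injective (ρ F) := by
    intro x y hxy
    have h1 := congrArg (ρ F⁻¹) hxy
    rw [← Module.End.mul_apply, ← Module.End.mul_apply, ← map_mul, inv_mul_cancel, map_one] at h1
    exact h1
  have hal : al ≠ 0 := by
    rintro rfl
    rw [zero_smul] at hu
    exact hu0 (hinj (by rw [hu, map_zero]))
  have hbe : be ≠ 0 := by
    rintro rfl
    rw [zero_smul] at hv
    exact hv0 (hinj (by rw [hv, map_zero]))
  obtain ⟨θ, hθ⟩ := Pool.Agent.TH118.CR.exists_add (Units.mk0 al hal * (Units.mk0 be hbe)⁻¹)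
    (fun k hk h => hab k hk (by
      rw [mul_pow, inv_pow, mul_inv_eq_one] at h
      exact congrArg Units.val h))
  have hθ' : ext0 θ al ≠ ext0 θ be := by
    intro h
    apply hθ
    rw [ofMul_mul, ofMul_inv, map_add, map_neg, ← ext0_ne θ hal, ← ext0_ne θ hbe, h,
      add_neg_cancel]
  obtain ⟨Y, hY⟩ := exists_op (ρ F) (ext0 θ)
  obtain ⟨Y', hY'⟩ := exists_op (σ F) (ext0 θ)
  have hmem : (Y, ext0 θ (χ F), Y') ∈ PA B ρ σ := by
    refine mem_PA.2 fun d => mem_PP.2 ⟨fun x y => ?_, fun h hh v => ?_⟩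
    · have h1 := deriv_op θ (ρ F) hinj (χ F • (1 : End K K)) hY
        (Y' := ext0 θ (χ F) • (1 : End K K)) (fun β z hz => ?_) (h := bm B) (M := 1) one_pos
        (fun v => ?_) ![x, y]
      · rw [Fin.sum_univ_two] at h1
        simpa [bm] using h1
      · by_cases hz0 : z = 0
        · rw [hz0, map_zero, smul_zero]
        · have h2 : χ F = β := by
            obtain ⟨n, hn⟩ := mem_gen.1 hz
            have h3 : ∀ n : ℕ, ((χ F • (1 : End K K) - algebraMap K (End K K) β) ^ n) z =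
                (χ F - β) ^ n * z := by
              intro n
              induction n with
              | zero => simp
              | succ n ih =>
                rw [pow_succ', Module.End.mul_apply, ih, LinearMap.sub_apply, LinearMap.smul_apply,
                  Module.End.one_apply, Module.algebraMap_end_apply, smul_eq_mul, smul_eq_mul]
                ring
            rw [h3] at hn
            have h4 := (mul_eq_zero.1 hn).resolve_right hz0
            exact sub_eq_zero.1 (eq_zero_of_pow_eq_zero h4)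
          rw [← h2, LinearMap.smul_apply, Module.End.one_apply]
      · rw [pow_one, pow_one]
        change B (ρ F (v 0)) (ρ F (v 1)) = χ F • B (v 0) (v 1)
        rw [hB, smul_eq_mul]
    · obtain ⟨Δ, hΔ, h1⟩ := hh
      obtain ⟨M, hM, hFM⟩ := exists_pow hΔ F
      refine deriv_op θ (ρ F) hinj (σ F) hY hY' hM (fun v => ?_) v
      have h2 := h1 _ hFM v
      rw [map_pow, map_pow] at h2
      exact h2
  have hgen : ∀ (w : T) (α : K), ρ F w = α • w → w ∈ Module.End.maxGenEigenspace (ρ F) α := by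
    intro w α h
    refine mem_gen.2 ⟨1, ?_⟩
    rw [pow_one, LinearMap.sub_apply, h, Module.algebraMap_end_apply, sub_self]
  exact ⟨Y, mem_LA.2 ⟨_, _, hmem⟩, _, _, hθ', hY al u (hgen u al hu), hY be v (hgen v be hv)⟩

/-- The basic step, without the space of constants. -/
theorem line_mem {ι : Type} [Fintype ι] (b : Basis ι K T) {N : End K T} (hN : ∀ x, N (N x) = 0)
    (hNL : ∀ D : ℕ, N ∈ L0 B ρ (sig ρ b (D + 1))) (t : K) :
    1 + t • N ∈ zariskiClosure b (Set.range ρ) := by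
  intro p hp
  obtain ⟨n, c, d, r, v, hΦ⟩ := PF_repr b (ev_mem b p)
  set D := ∑ k, d k with hD
  have hd : ∀ k, d k ≤ D + 1 := fun k => le_trans (Finset.single_le_sum (f := d)
    (fun _ _ => Nat.zero_le _) (Finset.mem_univ k)) (Nat.le_succ _)
  obtain ⟨Y', hY'⟩ := mem_L0.1 (hNL D)
  have h1 : ∑ k, c k • coefD ρ b (hd k) (r k) (v k) = 0 := by
    apply Subtype.ext
    funext g
    have h2 := hp _ ⟨g, rfl⟩
    rw [hΦ] at h2
    rw [Submodule.coe_sum, Finset.sum_apply]
    exact h2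
  have h2 := rel_exp c d (fun k => coefD ρ b (hd k) (r k)) hN (Y' := Y')
    (fun k w => (mem_PP.1 (mem_PA.1 hY' (d k))).2 _ (eqv_coefD ρ b (hd k) (r k)) w) v h1 t
  have h3 := congrFun (congrArg Subtype.val h2) 1
  rw [Submodule.coe_sum, Finset.sum_apply] at h3
  rw [hΦ]
  simp only [Submodule.coe_smul, Pi.smul_apply, coefD_apply, coefm_apply, smul_eq_mul, map_one,
    Module.End.one_apply] at h3
  exact h3

end pairs

variable {K : Type} [Field K] [CharZero K] [IsAlgClosed K] {M : Type} [AddCommGroup M]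
  [Module K M] [FiniteDimensional K M] {N : Type} [AddCommGroup N]
  [Module K N] [FiniteDimensional K N] {ι : Type} [Fintype ι] (b : Basis ι K (M × N))
  {G : Type} [Group G] {R : G →* (M →ₗ[K] M)} {S : G →* (N →ₗ[K] N)}
  {ω : M →ₗ[K] M →ₗ[K] K} {χ : G →* K}

/-- The restriction of the algebra to the first summand. -/
noncomputable def LR (R : G →* (M →ₗ[K] M)) (S : G →* (N →ₗ[K] N)) (ω : M →ₗ[K] M →ₗ[K] K)
    (b : Basis ι K (M × N)) (D : ℕ) : Submodule K (End K M) :=
  (LA (fB ω) (dsum R S) (sig (dsum R S) b (D + 1))).map res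

theorem LR_conj (hω : ∀ g x y, ω (R g x) (R g y) = χ g * ω x y) {D : ℕ} (g : G) :
    ∀ Z ∈ LR R S ω b D, R g * Z * R g⁻¹ ∈ LR R S ω b D := by
  intro Z hZ
  obtain ⟨Y, hY, rfl⟩ := Submodule.mem_map.1 hZ
  refine Submodule.mem_map.2 ⟨dsum R S g * Y * dsum R S g⁻¹, LA_conj (χ := χ) (hfB hω) g Y hY, ?_⟩
  apply LinearMap.ext
  intro m
  rw [res_apply, Module.End.mul_apply, Module.End.mul_apply, Module.End.mul_apply,
    Module.End.mul_apply, dsum_apply, dsum_apply, res_apply, map_zero]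

theorem LR_nonscalar (hω : ∀ g x y, ω (R g x) (R g y) = χ g * ω x y) {D : ℕ}
    (hF : HasHyperbolic (T := M) R) : ∃ Z ∈ LR R S ω b D, ¬∃ c : K, ∀ x, Z x = c • x := by
  obtain ⟨F, x, y, l, m, hx0, hy0, hx, hy, hlm⟩ := hF
  obtain ⟨Y, hY, s, t, hst, h1, h2⟩ := exists_PA' (B := fB ω) (ρ := dsum R S)
    (σ := sig (dsum R S) b (D + 1)) (χ := χ) (hfB hω) F (u := (x, 0)) (v := (y, 0))
    (fun h => hx0 (congrArg Prod.fst h)) (fun h => hy0 (congrArg Prod.fst h)) (al := l) (be := m)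
    (by rw [dsum_apply, map_zero, hx, Prod.smul_mk, smul_zero])
    (by rw [dsum_apply, map_zero, hy, Prod.smul_mk, smul_zero]) hlm
  refine ⟨res Y, Submodule.mem_map.2 ⟨Y, hY, rfl⟩, ?_⟩
  rintro ⟨c, hc⟩
  apply hst
  have h3 := hc x
  have h4 := hc y
  rw [res_apply, h1] at h3
  rw [res_apply, h2] at h4
  have h5 : (s - c) • x = 0 := by
    rw [sub_smul, sub_eq_zero]
    exact h3
  have h6 : (t - c) • y = 0 := by
    rw [sub_smul, sub_eq_zero]
    exact h4
  rw [sub_eq_zero.1 ((smul_eq_zero.1 h5).resolve_right hx0),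
    sub_eq_zero.1 ((smul_eq_zero.1 h6).resolve_right hy0)]

/-- The eigenvalues of the conjugation. -/
theorem Lnu_root {γ : G} {k : ℕ} (hγ : R γ ^ k = 1) {L : Submodule K (End K M)} {ν : K}
    {Z : End K M} (hZ : Z ∈ Lnu (R := R) L γ ν) (hZ0 : Z ≠ 0) : ν ^ k = 1 ∧ ν ≠ 0 := by
  have h2 : ∀ (t : ℕ) (u : M), R (γ ^ t) (Z u) = ν ^ t • Z (R (γ ^ t) u) := by
    intro t
    induction t with
    | zero => intro u; simp
    | succ t ih =>
      intro u
      rw [pow_succ, map_mul, Module.End.mul_apply, hZ.2, map_smul, ih, smul_smul, pow_succ,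
        Module.End.mul_apply, mul_comm]
  obtain ⟨u, hu⟩ : ∃ u, Z u ≠ 0 := by
    by_contra hcon
    push Not at hcon
    exact hZ0 (LinearMap.ext hcon)
  constructor
  · have h3 := h2 k u
    rw [map_pow, hγ, Module.End.one_apply, Module.End.one_apply] at h3
    have h4 : (1 - ν ^ k) • Z u = 0 := by
      rw [sub_smul, one_smul, sub_eq_zero]
      exact h3
    exact (sub_eq_zero.1 ((smul_eq_zero.1 h4).resolve_right hu)).symm
  · rintro rfl
    apply hu
    have h3 := h2 1 u
    rw [pow_one, pow_one, zero_smul] at h3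
    have h4 := congrArg (R γ⁻¹) h3
    rw [← Module.End.mul_apply, ← map_mul, inv_mul_cancel, map_one, map_zero] at h4
    exact h4

/-- An element `γ` of finite order, which is not a scalar, has an eigenvalue `a`,
`a ^ 2 = χ(γ)`, such that all other eigenvalues are simple, and the codimension `c` of the eigenspace
for `a` satisfies `c ^ 2 < 2 d`, `d` the dimension of this eigenspace. -/
def SmallAt (R : Representation K G M) (χ : G →* K) (γ : G) : Prop :=
  ∃ a : K, a * a = χ γ ∧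
    (∀ α, α ≠ a → finrank K (Module.End.eigenspace (R γ) α) ≤ 1) ∧
    (∃ α, α ≠ a ∧ Module.End.eigenspace (R γ) α ≠ ⊥) ∧
    (finrank K M - finrank K (Module.End.eigenspace (R γ) a)) ^ 2 <
      2 * finrank K (Module.End.eigenspace (R γ) a)

/-- **The symplectic Lie algebra of the first summand.** -/
theorem sum_all (halt : ∀ v, ω v v = 0) (hnd : ∀ u, (∀ v, ω u v = 0) → u = 0)
    (hω : ∀ g x y, ω (R g x) (R g y) = χ g * ω x y)
    (hX : Pool.Agent.W522.U.SI (X := M) R (⊤ : Submodule K M))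
    {γ : G} {k : ℕ} (hk : 0 < k) (hγ : R γ ^ k = 1) (hS : S γ = 1)
    (hin : SmallAt (M := M) R χ γ ∨ SplitsIsolated (X := M) R χ γ)
    (hF : HasHyperbolic (T := M) R) (D : ℕ) (x y : M) :
    Pool.Agent.H204R3.SP.SS ω x y ∈ LM R S ω b D := by
  have hω0 : ∃ x y, ω x y ≠ 0 := by
    obtain ⟨F, x, y, l, m, hx0, -⟩ := hF
    by_contra hcon
    push Not at hcon
    exact hx0 (hnd x (hcon x))
  have hLM : ∀ ν : K, ν ≠ 1 → ∀ Z ∈ Lnu (R := R) (LR R S ω b D) γ ν, Z ∈ LM R S ω b D := by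
    intro ν hν Z hZ
    by_cases hZ0 : Z = 0
    · rw [hZ0]
      exact Submodule.zero_mem _
    · obtain ⟨h1, h2⟩ := Lnu_root hγ hZ hZ0
      exact LM_of_Lnu b hω hω0 hS hk hγ hν h2 h1 hZ
  have hns := LR_nonscalar (S := S) b hω (D := D) hF
  rcases hin with ⟨a, ha, hsim, ⟨α, hα, hαb⟩, hsmall⟩ | hiso
  · have heig : ∀ α, eig (X := M) R γ ⊤ α = Module.End.eigenspace (R γ) α :=
      fun α => top_inf_eq _
    have hsim' : ∀ α, α ≠ a → finrank K (eig (X := M) R γ ⊤ α) ≤ 1 := by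
      intro α hα
      rw [heig]
      exact hsim α hα
    have hα1 : finrank K (eig (X := M) R γ ⊤ α) = 1 := by
      refine le_antisymm (hsim' α hα) ?_
      rw [heig]
      exact Submodule.one_le_finrank_iff.2 hαb
    obtain ⟨ν, hν, hνb⟩ := exists_Lnu (R := R) (L := LR R S ω b D) (γ := γ)
      (fun g Y hY => LR_conj b hω g Y hY) hk hγ hX hns hα1
    obtain ⟨Z, hZ, hZ0⟩ := Submodule.exists_mem_ne_zero_of_ne_bot hνb
    have hZL : Z ∈ LM R S ω b D := hLM ν hν Z hZ
    have hns' : ∃ Y ∈ LM R S ω b D, ¬∃ c : K, ∀ u : M, Y u = c • u := by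
      refine ⟨Z, hZL, ?_⟩
      rintro ⟨c, hc⟩
      apply hZ0
      have hc0 : c = 0 := by
        obtain ⟨u, y, hy⟩ := hω0
        have h3 := LM_skew b Z hZL u y
        rw [hc, hc, map_smul, map_smul, LinearMap.smul_apply, smul_eq_mul] at h3
        have h4 : (2 * c) * ω u y = 0 := by linear_combination h3
        exact (mul_eq_zero.1 ((mul_eq_zero.1 h4).resolve_right hy)).resolve_left two_ne_zero
      apply LinearMap.ext
      intro z
      rw [hc, hc0, zero_smul, LinearMap.zero_apply]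
    obtain ⟨W, hW, hW2, hW0, hWr⟩ := small_N (R := R) (χ := χ) (L := LM R S ω b D) hk hγ halt hnd
      hω ha hsim' (LM_conj b hω) (LM_bracket b) (LM_skew b) hX hns'
      ⟨α, hα, by rw [heig]; exact hαb⟩ (by rw [heig]; exact hsmall)
    exact full_of_N (R := R) (χ := χ) halt hnd hω (LM_conj b hω) (LM_bracket b) (LM_skew b) hX hW
      hW2 hW0 hWr x y
  · obtain ⟨ν, hν, W, hW, hW2, hW0, hWr⟩ := iso_N (R := R) (χ := χ) (L := LR R S ω b D) halt hω hnd
      hk hγ hX (fun g Y hY => LR_conj b hω g Y hY) hns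
      (fun ν hν Z hZ => LM_skew b Z (hLM ν hν Z hZ)) hiso
    exact full_of_N (R := R) (χ := χ) halt hnd hω (LM_conj b hω) (LM_bracket b) (LM_skew b) hX
      (hLM ν hν W hW) hW2 hW0 hWr x y

/-- **The symplectic group of the first summand is in the Zariski closure.** -/
theorem sum_sp (halt : ∀ v, ω v v = 0) (hnd : ∀ u, (∀ v, ω u v = 0) → u = 0)
    (hω : ∀ g x y, ω (R g x) (R g y) = χ g * ω x y)
    (hX : Pool.Agent.W522.U.SI (X := M) R (⊤ : Submodule K M))
    {γ : G} {k : ℕ} (hk : 0 < k) (hγ : R γ ^ k = 1) (hS : S γ = 1)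
    (hin : SmallAt (M := M) R χ γ ∨ SplitsIsolated (X := M) R χ γ)
    (hF : HasHyperbolic (T := M) R) {Δ : Subgroup G} (hΔ : Δ.FiniteIndex) {s : End K M}
    (hs : ∀ x y, ω (s x) (s y) = ω x y) :
    s.prodMap (1 : End K N) ∈ zariskiClosure b (dsum R S '' Δ) := by
  have hall := sum_all b halt hnd hω hX hk hγ hS hin hF
  have hN : ∀ (u : M) (D : ℕ), exz ((ω u).smulRight u) ∈
      L0 (fB ω) (dsum R S) (sig (dsum R S) b (D + 1)) := by
    intro u D
    have h1 : (ω u).smulRight u ∈ LM R S ω b D := by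
      have h1 := Submodule.smul_mem _ (2 : K)⁻¹ (hall D u u)
      have h2 : (2 : K)⁻¹ • Pool.Agent.H204R3.SP.SS ω u u = (ω u).smulRight u := by
        rw [Pool.Agent.H204R3.SP.SS, ← two_smul K, smul_smul, inv_mul_cancel₀ two_ne_zero,
          one_smul]
      rwa [h2] at h1
    exact h1
  have hline : ∀ (u : M) (t : K), (tv ω u t).prodMap (1 : End K N) ∈
      zariskiClosure b (dsum R S '' Δ) := by
    intro u t
    have h1 := line_index b hΔ (N := exz ((ω u).smulRight u)) (fun t =>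
      line_mem b (N := exz ((ω u).smulRight u)) (fun x => by
        rw [exz_apply, exz_apply, LinearMap.smulRight_apply, LinearMap.smulRight_apply, map_smul,
          halt, smul_zero, zero_smul]
        rfl) (hN u) t) t
    have h2 : (tv ω u t).prodMap (1 : End K N) = 1 + t • exz ((ω u).smulRight u) := by
      apply LinearMap.ext
      rintro ⟨m, n⟩
      rw [LinearMap.prodMap_apply, LinearMap.add_apply, LinearMap.smul_apply, exz_apply,
        Module.End.one_apply, Module.End.one_apply, Prod.smul_mk, smul_zero, Prod.mk_add_mk,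
        add_zero]
      rfl
    rw [h2]
    exact h1
  have hmul : ∀ x ∈ dsum R S '' Δ, ∀ y ∈ dsum R S '' Δ, x * y ∈ dsum R S '' Δ := by
    rintro _ ⟨g, hg, rfl⟩ _ ⟨g', hg', rfl⟩
    exact ⟨g * g', Δ.mul_mem hg hg', map_mul _ g g'⟩
  have hs' := sp_le_TM halt hnd hs
  clear hs
  induction hs' using Submonoid.closure_induction with
  | mem s hs =>
    obtain ⟨⟨u, t⟩, rfl⟩ := hs
    exact hline u t
  | one =>
    refine subset_zc b _ ⟨1, Δ.one_mem, ?_⟩
    rw [map_one]
    rfl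
  | mul s s' _ _ h h' =>
    have h1 := zc_mul b hmul h h'
    exact h1

/-- **The fibre product.** -/
theorem sum_closure (halt : ∀ v, ω v v = 0) (hnd : ∀ u, (∀ v, ω u v = 0) → u = 0)
    (hω : ∀ g x y, ω (R g x) (R g y) = χ g * ω x y)
    (hX : Pool.Agent.W522.U.SI (X := M) R (⊤ : Submodule K M))
    (hin : ∃ γ, (∃ k : ℕ, 0 < k ∧ R γ ^ k = 1) ∧ S γ = 1 ∧
      (SmallAt (M := M) R χ γ ∨ SplitsIsolated (X := M) R χ γ))
    (hF : HasHyperbolic (T := M) R) {Δ : Subgroup G} (hΔ : Δ.FiniteIndex)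
    {Q : Set (End K M × End K N)} (h1 : ∀ g ∈ Δ, (R g, S g) ∈ Q)
    (h2 : ∀ x ∈ Q, ∃ g ∈ Δ, x.2 = S g ∧ ∀ u v, ω (x.1 u) (x.1 v) = χ g * ω u v) :
    zariskiClosure b ((fun g => (R g).prodMap (S g)) '' Δ) =
      zariskiClosure b ((fun x => x.1.prodMap x.2) '' Q) := by
  obtain ⟨γ, ⟨k, hk, hγ⟩, hS, hin⟩ := hin
  have h0 : (fun g => (R g).prodMap (S g)) '' (Δ : Set G) = dsum R S '' Δ := rfl
  rw [h0]
  refine le_antisymm ?_ ?_
  · refine zc_mono b ?_
    rintro _ ⟨g, hg, rfl⟩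
    exact subset_zc b _ ⟨(R g, S g), h1 g hg, rfl⟩
  · refine zc_mono b ?_
    rintro _ ⟨x, hx, rfl⟩
    obtain ⟨g, hg, hx2, hx1⟩ := h2 x hx
    have hmul : ∀ x ∈ dsum R S '' Δ, ∀ y ∈ dsum R S '' Δ, x * y ∈ dsum R S '' Δ := by
      rintro _ ⟨g, hg, rfl⟩ _ ⟨g', hg', rfl⟩
      exact ⟨g * g', Δ.mul_mem hg hg', map_mul _ g g'⟩
    have hχ0 : χ g * χ g⁻¹ = 1 := by rw [← map_mul, mul_inv_cancel, map_one]
    have h3 := sum_sp (N := N) (S := S) b halt hnd hω hX hk hγ hS hin hF hΔ (s := R g⁻¹ * x.1)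
      (fun u v => by
        rw [Module.End.mul_apply, Module.End.mul_apply, hω, hx1]
        linear_combination ω u v * hχ0)
    have h4 := zc_mul b hmul (subset_zc b _ ⟨g, hg, rfl⟩) h3
    have h5 : dsum R S g * (R g⁻¹ * x.1).prodMap (1 : End K N) = x.1.prodMap x.2 := by
      apply LinearMap.ext
      rintro ⟨m, n⟩
      rw [Module.End.mul_apply, LinearMap.prodMap_apply, LinearMap.prodMap_apply, dsum_apply,
        Module.End.mul_apply, ← Module.End.mul_apply, ← map_mul, mul_inv_cancel, map_one, hx2]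
      rfl
    rw [h5] at h4
    exact h4

end Pool.Agent.TH118.ZC
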