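import Mathlib
import Pool.Agent.TH118.ZC.SumMain

/-!
# The Zariski closure of the image in a direct sum
-/

set_option linter.unusedSectionVars false

namespace Pool.Agent.TH118.ZC

open Module Finset Function Pool.Agent.TH125.Gal Pool.Agent.TH118.SG

section poly

variable {K : Type} [Field K] {T : Type} [AddCommGroup T] [Module K T] {ι : Type}
  {U : Type} [AddCommGroup U] [Module K U] {κ : Type}

/-- The matrix entries of `r x` are polynomials in the matrix entries of `x`. -/
def IsPolynomialMap (b : Basis ι K T) (bU : Basis κ K U) (r : End K T → End K U) : Prop :=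
  ∀ ij : κ × κ, ∃ P : MvPolynomial (ι × ι) K, ∀ x, bU.repr (r x (bU ij.2)) ij.1 = ev b P x

theorem zc_image [Fintype ι] [Fintype κ] (b : Basis ι K T) (bU : Basis κ K U) {r : End K T → End K U}
    (hr : IsPolynomialMap b bU r) {A A' : Set (End K T)}
    (h : zariskiClosure b A = zariskiClosure b A') :
    zariskiClosure bU (r '' A) = zariskiClosure bU (r '' A') := by
  choose P hP using hr
  have key : ∀ (A A' : Set (End K T)), zariskiClosure b A ⊆ zariskiClosure b A' →
      zariskiClosure bU (r '' A) ⊆ zariskiClosure bU (r '' A') := by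
    intro A A' hA
    refine zc_mono bU ?_
    rintro _ ⟨x, hx, rfl⟩ p hp
    have h1 : ∀ y, ev b (MvPolynomial.bind₁ P p) y = ev bU p (r y) := by
      intro y
      unfold ev
      rw [← MvPolynomial.aeval_eq_bind₁, MvPolynomial.aeval_def, MvPolynomial.hom_eval₂,
        MvPolynomial.eval_eq', MvPolynomial.eval₂_eq']
      refine Finset.sum_congr rfl fun d _ => ?_
      congr 1
      · change MvPolynomial.eval _ (MvPolynomial.C _) = _
        rw [MvPolynomial.eval_C]
      · refine Finset.prod_congr rfl fun ij _ => ?_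
        congr 1
        exact (hP ij y).symm
    rw [← h1]
    refine hA (subset_zc b A hx) _ fun y hy => ?_
    rw [h1]
    exact hp _ ⟨y, hy, rfl⟩
  exact Set.Subset.antisymm (key _ _ h.subset) (key _ _ h.symm.subset)

end poly

variable {K : Type} [Field K] [CharZero K] [IsAlgClosed K] {M : Type} [AddCommGroup M]
  [Module K M] [FiniteDimensional K M] {N : Type} [AddCommGroup N] [Module K N]
  [FiniteDimensional K N] {G : Type} [Group G] {R : G →* End K M} {S : G →* End K N}
  {χ : G →* K} {ω : M →ₗ[K] M →ₗ[K] K} {ι : Type} [Fintype ι] (b : Basis ι K (M × N))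

section

variable (halt : ∀ v, ω v v = 0) (hnd : ∀ u, (∀ v, ω u v = 0) → u = 0)
    (hω : ∀ g x y, ω (R g x) (R g y) = χ g * ω x y)
    (hX : Pool.Agent.W522.U.SI (X := M) R (⊤ : Submodule K M))
    (hin : ∃ γ, (∃ k : ℕ, 0 < k ∧ R γ ^ k = 1) ∧ S γ = 1 ∧
      (SmallAt (M := M) R χ γ ∨ SplitsIsolated (X := M) R χ γ))
    (hF : HasHyperbolic (T := M) R) {Δ : Subgroup G} (hΔ : Δ.FiniteIndex)

include halt hnd hω hX hin hF hΔ in
theorem sim_mem {g : G} (hg : g ∈ Δ) {x : End K M}
    (hx : ∀ u v, ω (x u) (x v) = χ g * ω u v) :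
    x.prodMap (S g) ∈ zariskiClosure b ((fun g => (R g).prodMap (S g)) '' Δ) := by
  rw [sum_closure b halt hnd hω hX hin hF hΔ (Q := {x | ∃ g ∈ Δ, x.2 = S g ∧
    ∀ u v, ω (x.1 u) (x.1 v) = χ g * ω u v}) (fun g hg => ⟨g, hg, rfl, hω g⟩) (fun x hx => hx)]
  exact subset_zc b _ ⟨(x, S g), ⟨g, hg, rfl, hx⟩, rfl⟩

include halt hnd hω hX hin hF hΔ in
/-- **The fibre product over the multiplier.** -/
theorem fib_mem {κ : Type} [Fintype κ] (bN : Basis κ K N) (c : MvPolynomial (κ × κ) K)
    (hc : ∀ g ∈ Δ, ev bN c (S g) = χ g) {x : End K M} {y : End K N}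
    (hy : y ∈ zariskiClosure bN (S '' Δ)) (hcy : ev bN c y ≠ 0)
    (hx : ∀ u v, ω (x u) (x v) = ev bN c y * ω u v) :
    x.prodMap y ∈ zariskiClosure b ((fun g => (R g).prodMap (S g)) '' Δ) := by
  classical
  obtain ⟨z, hz⟩ := IsAlgClosed.exists_pow_nat_eq (ev bN c y) (n := 2) (by norm_num)
  have hz0 : z ≠ 0 := by
    rintro rfl
    apply hcy
    rw [← hz]
    norm_num
  set s : End K M := z⁻¹ • x with hs
  have hsB : ∀ u v, ω (s u) (s v) = ω u v := by
    intro u v
    rw [hs, LinearMap.smul_apply, LinearMap.smul_apply, map_smul, map_smul, LinearMap.smul_apply,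
      hx, smul_eq_mul, smul_eq_mul, ← hz]
    field_simp
  have hxs : x = z • s := by
    rw [hs, smul_smul, mul_inv_cancel₀ hz0, one_smul]
  clear_value s
  intro p hp
  -- the entries
  let a : ι × ι → K := fun ij => b.repr (s (b ij.2).1, 0) ij.1
  let l : ι × ι → MvPolynomial (κ × κ) K := fun ij =>
    ∑ k : κ, ∑ m : κ, MvPolynomial.C (bN.repr (b ij.2).2 m * b.repr (0, bN k) ij.1) *
      MvPolynomial.X (k, m)
  let ent : End K N → κ × κ → K := fun y kl => bN.repr (y (bN kl.2)) kl.1
  have hl : ∀ (ij : ι × ι) (y : End K N), MvPolynomial.eval (ent y) (l ij) =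
      b.repr (0, y (b ij.2).2) ij.1 := by
    intro ij y
    have h1 : (0, y (b ij.2).2) = ∑ k : κ, ∑ m : κ, (bN.repr (b ij.2).2 m * ent y (k, m)) •
        ((0, bN k) : M × N) := by
      have h2 : y (b ij.2).2 = ∑ k : κ, ∑ m : κ, (bN.repr (b ij.2).2 m * ent y (k, m)) • bN k := by
        conv_lhs => rw [← bN.sum_repr (b ij.2).2]
        rw [map_sum, Finset.sum_comm]
        refine Finset.sum_congr rfl fun m _ => ?_
        rw [map_smul]
        conv_lhs => rw [← bN.sum_repr (y (bN m))]
        rw [Finset.smul_sum]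
        refine Finset.sum_congr rfl fun k _ => ?_
        rw [smul_smul]
      have h3 : ∀ n : N, ((0, n) : M × N) = LinearMap.inr K M N n := fun n => rfl
      rw [h3, h2, map_sum]
      refine Finset.sum_congr rfl fun k _ => ?_
      rw [map_sum]
      refine Finset.sum_congr rfl fun m _ => ?_
      rw [map_smul]
      rfl
    change _ = b.coord ij.1 (0, y (b ij.2).2)
    rw [h1, map_sum (b.coord ij.1), map_sum (MvPolynomial.eval (ent y))]
    refine Finset.sum_congr rfl fun k _ => ?_
    rw [map_sum (b.coord ij.1), map_sum (MvPolynomial.eval (ent y))]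
    refine Finset.sum_congr rfl fun m _ => ?_
    rw [map_smul, smul_eq_mul, MvPolynomial.eval_mul, MvPolynomial.eval_C, MvPolynomial.eval_X]
    change _ = _ * b.repr (0, bN k) ij.1
    ring
  let q : Polynomial (MvPolynomial (κ × κ) K) :=
    MvPolynomial.eval₂ ((Polynomial.C).comp MvPolynomial.C)
      (fun ij => Polynomial.X * Polynomial.C (MvPolynomial.C (a ij)) + Polynomial.C (l ij)) p
  let φ : K → End K N → Polynomial (MvPolynomial (κ × κ) K) →+* K := fun z y =>
    Polynomial.eval₂RingHom (MvPolynomial.eval (ent y)) z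
  have hφ : ∀ z y, φ z y q = ev b p ((z • s).prodMap y) := by
    intro z y
    change φ z y (MvPolynomial.eval₂ _ _ p) = _
    rw [MvPolynomial.hom_eval₂]
    unfold ev
    rw [MvPolynomial.eval_eq', MvPolynomial.eval₂_eq']
    refine Finset.sum_congr rfl fun d _ => ?_
    have h1 : ((φ z y).comp ((Polynomial.C).comp MvPolynomial.C)) (MvPolynomial.coeff d p) =
        MvPolynomial.coeff d p := by
      change Polynomial.eval₂ (MvPolynomial.eval (ent y)) z (Polynomial.C (MvPolynomial.C _)) = _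
      rw [Polynomial.eval₂_C, MvPolynomial.eval_C]
    rw [h1]
    congr 1
    refine Finset.prod_congr rfl fun ij _ => ?_
    congr 1
    change Polynomial.eval₂ (MvPolynomial.eval (ent y)) z
      (Polynomial.X * Polynomial.C (MvPolynomial.C (a ij)) + Polynomial.C (l ij)) = _
    rw [Polynomial.eval₂_add, Polynomial.eval₂_mul, Polynomial.eval₂_X, Polynomial.eval₂_C,
      Polynomial.eval₂_C, MvPolynomial.eval_C, hl]
    have h2 : ((z • s).prodMap y) (b ij.2) =
        z • ((s (b ij.2).1, 0) : M × N) + (0, y (b ij.2).2) := by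
      rw [LinearMap.prodMap_apply, Prod.smul_mk, smul_zero, Prod.mk_add_mk, add_zero, zero_add]
      rfl
    rw [h2, map_add, map_smul, Finsupp.add_apply, Finsupp.smul_apply, smul_eq_mul]
  -- division
  let f : Polynomial (MvPolynomial (κ × κ) K) := Polynomial.X ^ 2 - Polynomial.C c
  have hf : f.Monic := Polynomial.monic_X_pow_sub_C c two_ne_zero
  set r := q %ₘ f with hr
  have hrd : r = Polynomial.C (r.coeff 1) * Polynomial.X + Polynomial.C (r.coeff 0) := by
    refine Polynomial.eq_X_add_C_of_degree_le_one ?_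
    have h1 := Polynomial.degree_modByMonic_lt q hf
    have h2 : f.degree = (2 : ℕ) := Polynomial.degree_X_pow_sub_C (by norm_num) c
    rw [h2] at h1
    exact Order.le_of_lt_succ (by exact_mod_cast h1)
  have hval : ∀ (z : K) (y : End K N), z ^ 2 = ev bN c y →
      ev b p ((z • s).prodMap y) = ev bN (r.coeff 1) y * z + ev bN (r.coeff 0) y := by
    intro z y hzy
    rw [← hφ]
    have h1 := Polynomial.modByMonic_add_div q f
    have h2 := congrArg (φ z y) h1
    rw [map_add, map_mul] at h2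
    have h3 : φ z y f = 0 := by
      change Polynomial.eval₂ (MvPolynomial.eval (ent y)) z (Polynomial.X ^ 2 - Polynomial.C c) = 0
      rw [Polynomial.eval₂_sub, Polynomial.eval₂_pow, Polynomial.eval₂_X, Polynomial.eval₂_C,
        sub_eq_zero]
      exact hzy
    rw [h3, zero_mul, add_zero] at h2
    rw [← h2, ← hr]
    conv_lhs => rw [hrd]
    change Polynomial.eval₂ (MvPolynomial.eval (ent y)) z
      (Polynomial.C (r.coeff 1) * Polynomial.X + Polynomial.C (r.coeff 0)) = _
    rw [Polynomial.eval₂_add, Polynomial.eval₂_mul, Polynomial.eval₂_X, Polynomial.eval₂_C,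
      Polynomial.eval₂_C]
    rfl
  have hzero : ∀ g ∈ Δ, ev bN (r.coeff 1) (S g) = 0 ∧ ev bN (r.coeff 0) (S g) = 0 := by
    intro g hg
    obtain ⟨w, hw⟩ := IsAlgClosed.exists_pow_nat_eq (χ g) (n := 2) (by norm_num)
    have hχ0 : χ g * χ g⁻¹ = 1 := by rw [← map_mul, mul_inv_cancel, map_one]
    have hw0 : w ≠ 0 := by
      rintro rfl
      rw [← hw] at hχ0
      norm_num at hχ0
    have h1 : ∀ w : K, w ^ 2 = χ g →
        ev bN (r.coeff 1) (S g) * w + ev bN (r.coeff 0) (S g) = 0 := by
      intro w hw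
      rw [← hval w (S g) (by rw [hc g hg, hw])]
      refine sim_mem b halt hnd hω hX hin hF hΔ hg (fun u v => ?_) p hp
      rw [LinearMap.smul_apply, LinearMap.smul_apply, map_smul, map_smul, LinearMap.smul_apply,
        hsB, smul_eq_mul, smul_eq_mul, ← hw]
      ring
    have h2 := h1 w hw
    have h3 := h1 (-w) (by rw [neg_sq, hw])
    have h4 : (2 : K) * ev bN (r.coeff 0) (S g) = 0 := by linear_combination h2 + h3
    have h5 := (mul_eq_zero.1 h4).resolve_left two_ne_zero
    rw [h5, add_zero] at h2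
    exact ⟨(mul_eq_zero.1 h2).resolve_right hw0, h5⟩
  rw [hxs, hval z y hz, hy _ (by rintro _ ⟨g, hg, rfl⟩; exact (hzero g hg).1),
    hy _ (by rintro _ ⟨g, hg, rfl⟩; exact (hzero g hg).2), zero_mul, add_zero]

include halt hnd hω hX hin hF hΔ in
/-- **The closures of the image and of the larger group.** -/
theorem fib_closure {κ : Type} [Fintype κ] (bN : Basis κ K N) (c : MvPolynomial (κ × κ) K)
    (hc : ∀ g ∈ Δ, ev bN c (S g) = χ g) {Q : Set (End K M × End K N)}
    (h1 : ∀ g ∈ Δ, (R g, S g) ∈ Q)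
    (h2 : ∀ x ∈ Q, x.2 ∈ zariskiClosure bN (S '' Δ) ∧ ev bN c x.2 ≠ 0 ∧
      ∀ u v, ω (x.1 u) (x.1 v) = ev bN c x.2 * ω u v) :
    zariskiClosure b ((fun g => (R g).prodMap (S g)) '' Δ) =
      zariskiClosure b ((fun x => x.1.prodMap x.2) '' Q) := by
  refine le_antisymm ?_ ?_
  · refine zc_mono b ?_
    rintro _ ⟨g, hg, rfl⟩
    exact subset_zc b _ ⟨(R g, S g), h1 g hg, rfl⟩
  · refine zc_mono b ?_
    rintro _ ⟨x, hx, rfl⟩
    obtain ⟨hy, hc0, hs⟩ := h2 x hx
    exact fib_mem b halt hnd hω hX hin hF hΔ bN c hc hy hc0 hs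

include halt hnd hω hX hin hF hΔ in
/-- **The closures of the images in another representation.** -/
theorem fib_image {κ : Type} [Fintype κ] (bN : Basis κ K N) (c : MvPolynomial (κ × κ) K)
    (hc : ∀ g ∈ Δ, ev bN c (S g) = χ g) {Q : Set (End K M × End K N)}
    (h1 : ∀ g ∈ Δ, (R g, S g) ∈ Q)
    (h2 : ∀ x ∈ Q, x.2 ∈ zariskiClosure bN (S '' Δ) ∧ ev bN c x.2 ≠ 0 ∧
      ∀ u v, ω (x.1 u) (x.1 v) = ev bN c x.2 * ω u v)
    {U : Type} [AddCommGroup U] [Module K U] {μ : Type} [Fintype μ] (bU : Basis μ K U)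
    {r : End K (M × N) → End K U} (hr : IsPolynomialMap b bU r) {σ : G → End K U}
    (hσ : ∀ g ∈ Δ, σ g = r ((R g).prodMap (S g))) :
    zariskiClosure bU (σ '' Δ) = zariskiClosure bU ((fun x => r (x.1.prodMap x.2)) '' Q) := by
  have h3 := zc_image b bU hr (fib_closure b halt hnd hω hX hin hF hΔ bN c hc h1 h2)
  have h4 : σ '' (Δ : Set G) = r '' ((fun g => (R g).prodMap (S g)) '' (Δ : Set G)) := by
    rw [Set.image_image]
    exact Set.image_congr fun g hg => hσ g hg
  rw [h4, h3, Set.image_image]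

end

end Pool.Agent.TH118.ZC
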