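import Mathlib
import Pool.Agent.TH118.ZC.Fib
import Pool.Agent.TH118.TP.Good

/-!
# Unipotent elements in the Lie algebra of the Zariski closure
-/

set_option linter.unusedSectionVars false

namespace Pool.Agent.TH118.ZC

open Module Finset Function Pool.Agent.TH125.Gal Pool.Agent.TH118.SG

section bin

variable {K : Type} [Field K] [CharZero K]

/-- The binomial polynomials. -/
noncomputable def bin (K : Type) [Field K] (k : ℕ) : Polynomial K :=
  Polynomial.C ((k.factorial : K)⁻¹) * descPochhammer K k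

theorem bin_eval (n k : ℕ) : (bin K k).eval (n : K) = (n.choose k : K) := by
  rw [bin, Polynomial.eval_mul, Polynomial.eval_C, descPochhammer_eval_eq_descFactorial,
    Nat.descFactorial_eq_factorial_mul_choose, Nat.cast_mul, ← mul_assoc,
    inv_mul_cancel₀ (Nat.cast_ne_zero.2 (Nat.factorial_ne_zero k)), one_mul]

theorem pow_bin {E : Type} [AddCommGroup E] [Module K E] {f : End K E} {m : ℕ}
    (hf : (f - 1) ^ m = 0) (n : ℕ) :
    f ^ n = ∑ k ∈ range m, (n.choose k : K) • (f - 1) ^ k := by
  have h1 : f ^ n = ∑ k ∈ range (n + 1), (n.choose k : K) • (f - 1) ^ k := by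
    have h2 := (Commute.one_right (f - 1)).add_pow n
    rw [sub_add_cancel] at h2
    rw [h2]
    refine Finset.sum_congr rfl fun k _ => ?_
    rw [one_pow, mul_one, ← nsmul_eq_mul', Nat.cast_smul_eq_nsmul]
  have h3 : ∀ M, m ≤ M → ∑ k ∈ range M, (n.choose k : K) • (f - 1) ^ k =
      ∑ k ∈ range m, (n.choose k : K) • (f - 1) ^ k := by
    intro M hM
    symm
    refine Finset.sum_subset (Finset.range_mono hM) fun k _ hk => ?_
    rw [Finset.mem_range, not_lt] at hk
    rw [pow_eq_zero_of_le hk hf, smul_zero]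
  have h4 : ∀ M, n + 1 ≤ M → ∑ k ∈ range M, (n.choose k : K) • (f - 1) ^ k =
      ∑ k ∈ range (n + 1), (n.choose k : K) • (f - 1) ^ k := by
    intro M hM
    symm
    refine Finset.sum_subset (Finset.range_mono hM) fun k _ hk => ?_
    rw [Finset.mem_range, not_lt] at hk
    rw [Nat.choose_eq_zero_of_lt (by omega), Nat.cast_zero, zero_smul]
  rw [h1, ← h4 (max m (n + 1)) (le_max_right _ _), h3 _ (le_max_left _ _)]

end bin

section unip

variable {K : Type} [Field K] [CharZero K] [IsAlgClosed K] {T : Type} [AddCommGroup T]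
  [Module K T] [FiniteDimensional K T] {E : Type} [AddCommGroup E] [Module K E]
  [FiniteDimensional K E] {G : Type} [Group G]
  {B : T →ₗ[K] T →ₗ[K] K} {ρ : G →* (T →ₗ[K] T)} {σ : G →* (E →ₗ[K] E)} {χ : G →* K}

/-- **The logarithm of a unipotent element.** -/
theorem unip_L0 {γ : G} {N : End K T} (hg : ∀ x, ρ γ x = x + N x) (hN : ∀ x, N (N x) = 0)
    (hB : ∀ x y, B (ρ γ x) (ρ γ y) = B x y) {m : ℕ} (hσ : (σ γ - 1) ^ m = 0) :
    N ∈ L0 B ρ σ := by
  have hpow : ∀ (n : ℕ) x, ρ (γ ^ n) x = x + (n : K) • N x := by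
    intro n
    induction n with
    | zero =>
      intro x
      rw [pow_zero, map_one]
      simp
    | succ n ih =>
      intro x
      rw [pow_succ, map_mul, Module.End.mul_apply, hg, ih, map_add, hN, add_zero]
      push_cast
      module
  have h0 : ∀ x y, B (N x) y + B x (N y) + B (N x) (N y) = 0 := by
    intro x y
    have h1 := hB x y
    rw [hg, hg] at h1
    simp only [map_add, LinearMap.add_apply] at h1
    linear_combination h1
  have h00 : ∀ x y, B (N x) (N y) = 0 := by
    intro x y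
    have h1 := h0 (N x) y
    rwa [hN, map_zero, LinearMap.zero_apply, LinearMap.zero_apply, zero_add, add_zero] at h1
  refine mem_L0.2 ⟨∑ k ∈ range m, (bin K k).coeff 1 • (σ γ - 1) ^ k,
    mem_PA.2 fun d => mem_PP.2 ⟨fun x y => ?_, fun h hh v => ?_⟩⟩
  · have h1 := h0 x y
    rw [h00, add_zero] at h1
    rw [zero_mul]
    exact h1
  · obtain ⟨Δ, hΔ, h1⟩ := hh
    obtain ⟨n, hn, hgn⟩ := exists_pow hΔ γ
    rw [← sub_eq_zero, ← Module.forall_dual_apply_eq_zero_iff K]
    intro φ
    let q : Polynomial K := ∑ k ∈ range m, Polynomial.C (φ (((σ γ - 1) ^ k) (h v))) * bin K k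
    have hpq : pol h φ v (fun j => N (v j)) (fun _ => 0) = q := by
      refine Polynomial.eq_of_infinite_eval_eq _ _ ?_
      refine Set.infinite_of_injective_forall_mem (f := fun l : ℕ => ((n * l : ℕ) : K)) ?_ ?_
      · intro l l' hl
        have h3 : ((n * l : ℕ) : K) = ((n * l' : ℕ) : K) := hl
        have h4 : n * l = n * l' := Nat.cast_injective h3
        exact Nat.eq_of_mul_eq_mul_left hn h4
      · intro l
        have h3 : γ ^ (n * l) ∈ Δ := by
          rw [pow_mul]
          exact Subgroup.pow_mem _ hgn l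
        have h4 := h1 _ h3 v
        have h5 : (fun j => ρ (γ ^ (n * l)) (v j)) =
            fun j => v j + ((n * l : ℕ) : K) • N (v j) := by
          funext j
          rw [hpow]
        rw [h5, map_pow, pow_bin hσ, LinearMap.sum_apply] at h4
        rw [Set.mem_ofPred_eq, pol_eval]
        simp only [smul_zero, add_zero]
        rw [h4, map_sum, Polynomial.eval_finsetSum]
        refine Finset.sum_congr rfl fun k _ => ?_
        rw [Polynomial.eval_mul, Polynomial.eval_C, bin_eval, LinearMap.smul_apply, map_smul,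
          smul_eq_mul, mul_comm]
    have h6 := pol_coeff h φ v (fun j => N (v j)) (fun _ => 0)
    rw [hpq, Polynomial.finsetSum_coeff] at h6
    rw [map_sub, ← h6, LinearMap.sum_apply, map_sum, sub_eq_zero]
    refine Finset.sum_congr rfl fun k _ => ?_
    rw [Polynomial.coeff_C_mul, LinearMap.smul_apply, map_smul, smul_eq_mul, mul_comm]

end unip

section nilp

variable {K : Type} [Field K] {T : Type} [AddCommGroup T]
  [Module K T] {G : Type} [Group G] (ρ : G →* (T →ₗ[K] T)) {ι : Type}
  (b : Basis ι K T) (N : End K T)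

open scoped Classical in
/-- The functions given by vectors of which at least `p` are in the kernel of `N`. -/
def Fil (D p : ℕ) : Submodule K (G → K) :=
  Submodule.span K {φ | ∃ d ≤ D, ∃ (r : Fin d → ι) (v : Fin d → T),
    p ≤ (univ.filter fun j => N (v j) = 0).card ∧ φ = coefm ρ b r v}

variable {ρ b N}

theorem fil_step {γ : G} (hg : ∀ x, ρ γ x = x + N x) (hN : ∀ x, N (N x) = 0) {D p : ℕ} {φ : G → K}
    (hφ : φ ∈ Fil ρ b N D p) :
    LinearMap.funLeft K K (fun g : G => g * γ) φ - φ ∈ Fil ρ b N D (p + 1) := by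
  classical
  rw [Fil] at hφ
  induction hφ using Submodule.span_induction with
  | mem φ hφ =>
    obtain ⟨d, hd, r, v, hp, rfl⟩ := hφ
    have h1 : LinearMap.funLeft K K (fun g : G => g * γ) (coefm ρ b r v) =
        ∑ s : Finset (Fin d), coefm ρ b r (s.piecewise v fun j => N (v j)) := by
      rw [right_coefm, ← MultilinearMap.map_add_univ]
      congr 1
      funext j
      exact hg (v j)
    rw [h1, ← Finset.add_sum_erase _ _ (Finset.mem_univ (univ : Finset (Fin d))),
      Finset.piecewise_univ, add_sub_cancel_left]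
    refine Submodule.sum_mem _ fun s hs => ?_
    have hs1 : s ≠ univ := Finset.ne_of_mem_erase hs
    by_cases h2 : ∃ j, j ∉ s ∧ N (v j) = 0
    · obtain ⟨j, hj, hj0⟩ := h2
      have h3 : coefm ρ b r (s.piecewise v fun j => N (v j)) = 0 := by
        refine (coefm ρ b r).map_coord_zero j ?_
        rw [Finset.piecewise_eq_of_notMem _ _ _ hj, hj0]
      rw [h3]
      exact Submodule.zero_mem _
    · push Not at h2
      refine Submodule.subset_span ⟨d, hd, r, _, ?_, rfl⟩
      have h3 : (univ.filter fun j => N (v j) = 0) ∪ sᶜ ⊆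
          univ.filter fun j => N ((s.piecewise v fun j => N (v j)) j) = 0 := by
        intro j hj
        rw [Finset.mem_filter]
        refine ⟨Finset.mem_univ _, ?_⟩
        by_cases hjs : j ∈ s
        · rw [Finset.piecewise_eq_of_mem _ _ _ hjs]
          rcases Finset.mem_union.1 hj with h4 | h4
          · exact (Finset.mem_filter.1 h4).2
          · exact absurd hjs (Finset.mem_compl.1 h4)
        · rw [Finset.piecewise_eq_of_notMem _ _ _ hjs]
          exact hN _
      have h4 : Disjoint (univ.filter fun j => N (v j) = 0) sᶜ := by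
        rw [Finset.disjoint_left]
        intro j hj hj'
        exact h2 j (Finset.mem_compl.1 hj') (Finset.mem_filter.1 hj).2
      have h5 := Finset.card_le_card h3
      rw [Finset.card_union_of_disjoint h4] at h5
      have h6 : 0 < sᶜ.card := by
        rw [Finset.card_pos, Finset.nonempty_iff_ne_empty, ne_eq, Finset.compl_eq_empty_iff]
        exact hs1
      omega
  | zero => rw [map_zero, sub_zero]; exact Submodule.zero_mem _
  | add φ φ' _ _ h h' =>
    have h1 := Submodule.add_mem _ h h'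
    rw [map_add]
    have h2 : ∀ a b c d : G → K, a - b + (c - d) = a + c - (b + d) := fun a b c d => by abel
    rwa [h2] at h1
  | smul c φ _ h =>
    rw [map_smul, ← smul_sub]
    exact Submodule.smul_mem _ _ h

theorem fil_bot {D : ℕ} : Fil ρ b N D (D + 1) = ⊥ := by
  classical
  rw [eq_bot_iff, Fil, Submodule.span_le]
  rintro _ ⟨d, hd, r, v, hp, rfl⟩
  exfalso
  have h1 := Finset.card_filter_le (univ : Finset (Fin d)) fun j => N (v j) = 0
  rw [Finset.card_univ, Fintype.card_fin] at h1
  have h2 : D + 1 ≤ d := by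
    refine le_trans ?_ h1
    convert hp
  omega

/-- **The action on the functions is unipotent.** -/
theorem sig_unip {γ : G} (hg : ∀ x, ρ γ x = x + N x) (hN : ∀ x, N (N x) = 0) (D : ℕ) :
    (sig ρ b D γ - 1) ^ (D + 1) = 0 := by
  classical
  have h1 : ∀ (p : ℕ) (φ : ED ρ b D), (((sig ρ b D γ - 1) ^ p) φ : G → K) ∈ Fil ρ b N D p := by
    intro p
    induction p with
    | zero =>
      intro φ
      rw [pow_zero, Module.End.one_apply]
      have h2 : ED ρ b D ≤ Fil ρ b N D 0 := by
        rw [ED, Submodule.span_le]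
        rintro _ ⟨d, hd, r, v, rfl⟩
        exact Submodule.subset_span ⟨d, hd, r, v, Nat.zero_le _, rfl⟩
      exact h2 φ.2
    | succ p ih =>
      intro φ
      rw [pow_succ', Module.End.mul_apply, LinearMap.sub_apply, Module.End.one_apply,
        Submodule.coe_sub]
      exact fil_step hg hN (ih φ)
  apply LinearMap.ext
  intro φ
  apply Subtype.ext
  have h2 := h1 (D + 1) φ
  rw [fil_bot, Submodule.mem_bot] at h2
  rw [h2]
  rfl

end nilp

section good

variable {K : Type} [Field K] [CharZero K] [IsAlgClosed K] {M : Type} [AddCommGroup M]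
  [Module K M] [FiniteDimensional K M] {N : Type} [AddCommGroup N]
  [Module K N] [FiniteDimensional K N] {ι : Type} [Fintype ι] (b : Basis ι K (M × N))
  {G : Type} [Group G] {R : G →* (M →ₗ[K] M)} {S : G →* (N →ₗ[K] N)}
  {ω : M →ₗ[K] M →ₗ[K] K} {χ : G →* K}

theorem sum_all_unip (halt : ∀ v, ω v v = 0) (hnd : ∀ u, (∀ v, ω u v = 0) → u = 0)
    (hω : ∀ g x y, ω (R g x) (R g y) = χ g * ω x y)
    (hX : Pool.Agent.W522.U.SI (X := M) R (⊤ : Submodule K M))
    {γ : G} (hχ : χ γ = 1) (hS : S γ = 1) (h1 : R γ ≠ 1) (h2 : (R γ - 1) * (R γ - 1) = 0)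
    (h3 : finrank K (LinearMap.range (R γ - 1)) ≤ 2) (D : ℕ) (x y : M) :
    Pool.Agent.H204R3.SP.SS ω x y ∈ LM R S ω b D := by
  set Z : End K M := R γ - 1 with hZ
  have hZL : Z ∈ LM R S ω b D := by
    have hg : ∀ x, dsum R S γ x = x + (exz Z : End K (M × N)) x := by
      intro x
      rw [dsum_apply, exz_apply, hS, hZ, LinearMap.sub_apply]
      refine Prod.ext ?_ ?_
      · change R γ x.1 = x.1 + (R γ x.1 - x.1)
        abel
      · change x.2 = x.2 + 0
        rw [add_zero]
    have hN : ∀ x, (exz Z : End K (M × N)) ((exz Z : End K (M × N)) x) = 0 := by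
      intro x
      rw [exz_apply, exz_apply]
      have h4 := LinearMap.congr_fun h2 x.1
      rw [Module.End.mul_apply, LinearMap.zero_apply] at h4
      rw [h4]
      rfl
    exact unip_L0 hg hN (fun x y => by
      rw [fB_apply, fB_apply, dsum_apply, dsum_apply, hω, hχ, one_mul]) (sig_unip hg hN (D + 1))
  refine full_of_N (R := R) (χ := χ) halt hnd hω (LM_conj b hω) (LM_bracket b) (LM_skew b) hX hZL
    h2 (sub_ne_zero.2 h1) ?_ x y
  rwa [← LinearMap.range_eq_map]

open Pool.Agent.TH118.TP in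
/-- **The Lie algebra, for all types of good elements.** -/
theorem good_all (halt : ∀ v, ω v v = 0) (hnd : ∀ u, (∀ v, ω u v = 0) → u = 0)
    (hω : ∀ g x y, ω (R g x) (R g y) = χ g * ω x y)
    (hSI : StronglyIrr (T := M) R) {γ : G} (hχ : χ γ = 1) (hS : S γ = 1)
    (hin : GoodElement (T := M) R γ) (D : ℕ) (x y : M) :
    Pool.Agent.H204R3.SP.SS ω x y ∈ LM R S ω b D := by
  rcases hin with ⟨h1, h2, h3⟩ | ⟨h1, hF⟩
  · have h0 : ∃ z : M, z ≠ 0 := by
      by_contra hcon
      push Not at hcon
      apply h1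
      apply LinearMap.ext
      intro z
      rw [hcon (R γ z), hcon ((1 : M →ₗ[K] M) z)]
    exact sum_all_unip b halt hnd hω (SI_conv h0 hSI) hχ hS h1 h2 h3 D x y
  · obtain ⟨F, u, v, l, m, hu0, hv0, hu, hv, hlm⟩ := id hF
    have hX : Pool.Agent.W522.U.SI (X := M) R (⊤ : Submodule K M) := SI_conv ⟨u, hu0⟩ hSI
    rcases h1 with ⟨⟨k, hk, hγ⟩, a, ha, h1⟩ | ⟨⟨k, hk, hγ⟩, A, hA, hA', hdual, hpairs⟩
    · exact sum_all b halt hnd hω hX hk hγ hS (Or.inl ⟨a, by rw [hχ, ha], h1⟩) hF D x y
    · refine sum_all b halt hnd hω hX hk hγ hS (Or.inr ⟨A, hA, hA', fun α hα => ?_,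
        fun α hα β hβ h1 h2 => ?_⟩) hF D x y
      · rw [hχ, one_mul]
        exact hdual α hα
      · rw [hχ]
        exact hpairs α hα β hβ h1 h2

/-- The symplectic group of the first summand is in the closure. -/
theorem all_sp (halt : ∀ v, ω v v = 0) (hnd : ∀ u, (∀ v, ω u v = 0) → u = 0)
    (hall : ∀ (D : ℕ) (x y : M), Pool.Agent.H204R3.SP.SS ω x y ∈ LM R S ω b D)
    {Δ : Subgroup G} (hΔ : Δ.FiniteIndex) {s : End K M}
    (hs : ∀ x y, ω (s x) (s y) = ω x y) :
    s.prodMap (1 : End K N) ∈ zariskiClosure b (dsum R S '' Δ) := by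
  have hN : ∀ (u : M) (D : ℕ), exz ((ω u).smulRight u) ∈
      L0 (fB ω) (dsum R S) (sig (dsum R S) b (D + 1)) := by
    intro u D
    have h1 : (ω u).smulRight u ∈ LM R S ω b D := by
      have h1 := Submodule.smul_mem _ (2 : K)⁻¹ (hall D u u)
      have h2 : (2 : K)⁻¹ • Pool.Agent.H204R3.SP.SS ω u u = (ω u).smulRight u := by
        rw [Pool.Agent.H204R3.SP.SS, ← two_smul K, smul_smul, inv_mul_cancel₀ two_ne_zero,
          one_smul]
      rwa [h2] at h1
    exact h1
  have hline : ∀ (u : M) (t : K), (tv ω u t).prodMap (1 : End K N) ∈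
      zariskiClosure b (dsum R S '' Δ) := by
    intro u t
    have h1 := line_index b hΔ (N := exz ((ω u).smulRight u)) (fun t =>
      line_mem b (N := exz ((ω u).smulRight u)) (fun x => by
        rw [exz_apply, exz_apply, LinearMap.smulRight_apply, LinearMap.smulRight_apply, map_smul,
          halt, smul_zero, zero_smul]
        rfl) (hN u) t) t
    have h2 : (tv ω u t).prodMap (1 : End K N) = 1 + t • exz ((ω u).smulRight u) := by
      apply LinearMap.ext
      rintro ⟨m, n⟩
      rw [LinearMap.prodMap_apply, LinearMap.add_apply, LinearMap.smul_apply, exz_apply,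
        Module.End.one_apply, Module.End.one_apply, Prod.smul_mk, smul_zero, Prod.mk_add_mk,
        add_zero]
      rfl
    rw [h2]
    exact h1
  have hmul : ∀ x ∈ dsum R S '' Δ, ∀ y ∈ dsum R S '' Δ, x * y ∈ dsum R S '' Δ := by
    rintro _ ⟨g, hg, rfl⟩ _ ⟨g', hg', rfl⟩
    exact ⟨g * g', Δ.mul_mem hg hg', map_mul _ g g'⟩
  have hs' := sp_le_TM halt hnd hs
  clear hs
  induction hs' using Submonoid.closure_induction with
  | mem s hs =>
    obtain ⟨⟨u, t⟩, rfl⟩ := hs
    exact hline u t
  | one =>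
    refine subset_zc b _ ⟨1, Δ.one_mem, ?_⟩
    rw [map_one]
    rfl
  | mul s s' _ _ h h' =>
    have h1 := zc_mul b hmul h h'
    exact h1

section

variable (halt : ∀ v, ω v v = 0) (hnd : ∀ u, (∀ v, ω u v = 0) → u = 0)
    (hω : ∀ g x y, ω (R g x) (R g y) = χ g * ω x y)
    (hall : ∀ (D : ℕ) (x y : M), Pool.Agent.H204R3.SP.SS ω x y ∈ LM R S ω b D)
    {Δ : Subgroup G} (hΔ : Δ.FiniteIndex)

include halt hnd hω hall hΔ in
theorem all_sim {g : G} (hg : g ∈ Δ) {x : End K M}
    (hx : ∀ u v, ω (x u) (x v) = χ g * ω u v) :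
    x.prodMap (S g) ∈ zariskiClosure b (dsum R S '' Δ) := by
  have hmul : ∀ x ∈ dsum R S '' Δ, ∀ y ∈ dsum R S '' Δ, x * y ∈ dsum R S '' Δ := by
    rintro _ ⟨g, hg, rfl⟩ _ ⟨g', hg', rfl⟩
    exact ⟨g * g', Δ.mul_mem hg hg', map_mul _ g g'⟩
  have hχ0 : χ g * χ g⁻¹ = 1 := by rw [← map_mul, mul_inv_cancel, map_one]
  have h3 := all_sp (N := N) (S := S) b halt hnd hall hΔ (s := R g⁻¹ * x)
    (fun u v => by
      rw [Module.End.mul_apply, Module.End.mul_apply, hω, hx]
      linear_combination ω u v * hχ0)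
  have h4 := zc_mul b hmul (subset_zc b _ ⟨g, hg, rfl⟩) h3
  have h5 : dsum R S g * (R g⁻¹ * x).prodMap (1 : End K N) = x.prodMap (S g) := by
    apply LinearMap.ext
    rintro ⟨m, n⟩
    rw [Module.End.mul_apply, LinearMap.prodMap_apply, LinearMap.prodMap_apply, dsum_apply,
      Module.End.mul_apply, ← Module.End.mul_apply, ← map_mul, mul_inv_cancel, map_one]
    rfl
  rw [h5] at h4
  exact h4

include halt hnd hω hall hΔ in
/-- **The fibre product over the multiplier.** -/
theorem all_fib {κ : Type} [Fintype κ] (bN : Basis κ K N) (c : MvPolynomial (κ × κ) K)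
    (hc : ∀ g ∈ Δ, ev bN c (S g) = χ g) {x : End K M} {y : End K N}
    (hy : y ∈ zariskiClosure bN (S '' Δ)) (hcy : ev bN c y ≠ 0)
    (hx : ∀ u v, ω (x u) (x v) = ev bN c y * ω u v) :
    x.prodMap y ∈ zariskiClosure b (dsum R S '' Δ) := by
  classical
  obtain ⟨z, hz⟩ := IsAlgClosed.exists_pow_nat_eq (ev bN c y) (n := 2) (by norm_num)
  have hz0 : z ≠ 0 := by
    rintro rfl
    apply hcy
    rw [← hz]
    norm_num
  set s : End K M := z⁻¹ • x with hs
  have hsB : ∀ u v, ω (s u) (s v) = ω u v := by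
    intro u v
    rw [hs, LinearMap.smul_apply, LinearMap.smul_apply, map_smul, map_smul, LinearMap.smul_apply,
      hx, smul_eq_mul, smul_eq_mul, ← hz]
    field_simp
  have hxs : x = z • s := by
    rw [hs, smul_smul, mul_inv_cancel₀ hz0, one_smul]
  clear_value s
  intro p hp
  -- the entries
  let a : ι × ι → K := fun ij => b.repr (s (b ij.2).1, 0) ij.1
  let l : ι × ι → MvPolynomial (κ × κ) K := fun ij =>
    ∑ k : κ, ∑ m : κ, MvPolynomial.C (bN.repr (b ij.2).2 m * b.repr (0, bN k) ij.1) *
      MvPolynomial.X (k, m)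
  let ent : End K N → κ × κ → K := fun y kl => bN.repr (y (bN kl.2)) kl.1
  have hl : ∀ (ij : ι × ι) (y : End K N), MvPolynomial.eval (ent y) (l ij) =
      b.repr (0, y (b ij.2).2) ij.1 := by
    intro ij y
    have h1 : (0, y (b ij.2).2) = ∑ k : κ, ∑ m : κ, (bN.repr (b ij.2).2 m * ent y (k, m)) •
        ((0, bN k) : M × N) := by
      have h2 : y (b ij.2).2 = ∑ k : κ, ∑ m : κ, (bN.repr (b ij.2).2 m * ent y (k, m)) • bN k := by
        conv_lhs => rw [← bN.sum_repr (b ij.2).2]
        rw [map_sum, Finset.sum_comm]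
        refine Finset.sum_congr rfl fun m _ => ?_
        rw [map_smul]
        conv_lhs => rw [← bN.sum_repr (y (bN m))]
        rw [Finset.smul_sum]
        refine Finset.sum_congr rfl fun k _ => ?_
        rw [smul_smul]
      have h3 : ∀ n : N, ((0, n) : M × N) = LinearMap.inr K M N n := fun n => rfl
      rw [h3, h2, map_sum]
      refine Finset.sum_congr rfl fun k _ => ?_
      rw [map_sum]
      refine Finset.sum_congr rfl fun m _ => ?_
      rw [map_smul]
      rfl
    change _ = b.coord ij.1 (0, y (b ij.2).2)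
    rw [h1, map_sum (b.coord ij.1), map_sum (MvPolynomial.eval (ent y))]
    refine Finset.sum_congr rfl fun k _ => ?_
    rw [map_sum (b.coord ij.1), map_sum (MvPolynomial.eval (ent y))]
    refine Finset.sum_congr rfl fun m _ => ?_
    rw [map_smul, smul_eq_mul, MvPolynomial.eval_mul, MvPolynomial.eval_C, MvPolynomial.eval_X]
    change _ = _ * b.repr (0, bN k) ij.1
    ring
  let q : Polynomial (MvPolynomial (κ × κ) K) :=
    MvPolynomial.eval₂ ((Polynomial.C).comp MvPolynomial.C)
      (fun ij => Polynomial.X * Polynomial.C (MvPolynomial.C (a ij)) + Polynomial.C (l ij)) p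
  let φ : K → End K N → Polynomial (MvPolynomial (κ × κ) K) →+* K := fun z y =>
    Polynomial.eval₂RingHom (MvPolynomial.eval (ent y)) z
  have hφ : ∀ z y, φ z y q = ev b p ((z • s).prodMap y) := by
    intro z y
    change φ z y (MvPolynomial.eval₂ _ _ p) = _
    rw [MvPolynomial.hom_eval₂]
    unfold ev
    rw [MvPolynomial.eval_eq', MvPolynomial.eval₂_eq']
    refine Finset.sum_congr rfl fun d _ => ?_
    have h1 : ((φ z y).comp ((Polynomial.C).comp MvPolynomial.C)) (MvPolynomial.coeff d p) =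
        MvPolynomial.coeff d p := by
      change Polynomial.eval₂ (MvPolynomial.eval (ent y)) z (Polynomial.C (MvPolynomial.C _)) = _
      rw [Polynomial.eval₂_C, MvPolynomial.eval_C]
    rw [h1]
    congr 1
    refine Finset.prod_congr rfl fun ij _ => ?_
    congr 1
    change Polynomial.eval₂ (MvPolynomial.eval (ent y)) z
      (Polynomial.X * Polynomial.C (MvPolynomial.C (a ij)) + Polynomial.C (l ij)) = _
    rw [Polynomial.eval₂_add, Polynomial.eval₂_mul, Polynomial.eval₂_X, Polynomial.eval₂_C,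
      Polynomial.eval₂_C, MvPolynomial.eval_C, hl]
    have h2 : ((z • s).prodMap y) (b ij.2) =
        z • ((s (b ij.2).1, 0) : M × N) + (0, y (b ij.2).2) := by
      rw [LinearMap.prodMap_apply, Prod.smul_mk, smul_zero, Prod.mk_add_mk, add_zero, zero_add]
      rfl
    rw [h2, map_add, map_smul, Finsupp.add_apply, Finsupp.smul_apply, smul_eq_mul]
  -- division
  let f : Polynomial (MvPolynomial (κ × κ) K) := Polynomial.X ^ 2 - Polynomial.C c
  have hf : f.Monic := Polynomial.monic_X_pow_sub_C c two_ne_zero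
  set r := q %ₘ f with hr
  have hrd : r = Polynomial.C (r.coeff 1) * Polynomial.X + Polynomial.C (r.coeff 0) := by
    refine Polynomial.eq_X_add_C_of_degree_le_one ?_
    have h1 := Polynomial.degree_modByMonic_lt q hf
    have h2 : f.degree = (2 : ℕ) := Polynomial.degree_X_pow_sub_C (by norm_num) c
    rw [h2] at h1
    exact Order.le_of_lt_succ (by exact_mod_cast h1)
  have hval : ∀ (z : K) (y : End K N), z ^ 2 = ev bN c y →
      ev b p ((z • s).prodMap y) = ev bN (r.coeff 1) y * z + ev bN (r.coeff 0) y := by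
    intro z y hzy
    rw [← hφ]
    have h1 := Polynomial.modByMonic_add_div q f
    have h2 := congrArg (φ z y) h1
    rw [map_add, map_mul] at h2
    have h3 : φ z y f = 0 := by
      change Polynomial.eval₂ (MvPolynomial.eval (ent y)) z (Polynomial.X ^ 2 - Polynomial.C c) = 0
      rw [Polynomial.eval₂_sub, Polynomial.eval₂_pow, Polynomial.eval₂_X, Polynomial.eval₂_C,
        sub_eq_zero]
      exact hzy
    rw [h3, zero_mul, add_zero] at h2
    rw [← h2, ← hr]
    conv_lhs => rw [hrd]
    change Polynomial.eval₂ (MvPolynomial.eval (ent y)) z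
      (Polynomial.C (r.coeff 1) * Polynomial.X + Polynomial.C (r.coeff 0)) = _
    rw [Polynomial.eval₂_add, Polynomial.eval₂_mul, Polynomial.eval₂_X, Polynomial.eval₂_C,
      Polynomial.eval₂_C]
    rfl
  have hzero : ∀ g ∈ Δ, ev bN (r.coeff 1) (S g) = 0 ∧ ev bN (r.coeff 0) (S g) = 0 := by
    intro g hg
    obtain ⟨w, hw⟩ := IsAlgClosed.exists_pow_nat_eq (χ g) (n := 2) (by norm_num)
    have hχ0 : χ g * χ g⁻¹ = 1 := by rw [← map_mul, mul_inv_cancel, map_one]
    have hw0 : w ≠ 0 := by
      rintro rfl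
      rw [← hw] at hχ0
      norm_num at hχ0
    have h1 : ∀ w : K, w ^ 2 = χ g →
        ev bN (r.coeff 1) (S g) * w + ev bN (r.coeff 0) (S g) = 0 := by
      intro w hw
      rw [← hval w (S g) (by rw [hc g hg, hw])]
      refine all_sim b halt hnd hω hall hΔ hg (fun u v => ?_) p hp
      rw [LinearMap.smul_apply, LinearMap.smul_apply, map_smul, map_smul, LinearMap.smul_apply,
        hsB, smul_eq_mul, smul_eq_mul, ← hw]
      ring
    have h2 := h1 w hw
    have h3 := h1 (-w) (by rw [neg_sq, hw])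
    have h4 : (2 : K) * ev bN (r.coeff 0) (S g) = 0 := by linear_combination h2 + h3
    have h5 := (mul_eq_zero.1 h4).resolve_left two_ne_zero
    rw [h5, add_zero] at h2
    exact ⟨(mul_eq_zero.1 h2).resolve_right hw0, h5⟩
  rw [hxs, hval z y hz, hy _ (by rintro _ ⟨g, hg, rfl⟩; exact (hzero g hg).1),
    hy _ (by rintro _ ⟨g, hg, rfl⟩; exact (hzero g hg).2), zero_mul, add_zero]

end

end good

end Pool.Agent.TH118.ZC
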