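import Mathlib
import Pool.Agent.TH118.ZC.Uni

/-!
# Rational forms of the Zariski closures
-/

set_option linter.unusedSectionVars false

namespace Pool.Agent.TH118.ZC

open Module Finset Function Pool.Agent.TH125.Gal Pool.Agent.TH118.SG Pool.Agent.TH118.TP

section defs

/-- The endomorphisms whose matrix entries satisfy the polynomial equations `P` with rational
coefficients. -/
def zerosOf {K : Type} [Field K] [CharZero K] {M : Type} [AddCommGroup M] [Module K M] {ι : Type}
    (b : Basis ι K M) (P : Set (MvPolynomial (ι × ι) ℚ)) : Set (End K M) :=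
  {x | ∀ p ∈ P, ev b (MvPolynomial.map (algebraMap ℚ K) p) x = 0}

/-- For all sufficiently small subgroups of finite index, the Zariski closure of the image in the
general linear group is given by the polynomial equations `P` with rational coefficients. -/
def IsRationalForm {K : Type} [Field K] [CharZero K] {M : Type} [AddCommGroup M] [Module K M]
    {ι : Type} (b : Basis ι K M) {Γ : Type} [Group Γ] (R : Γ →* End K M)
    (P : Set (MvPolynomial (ι × ι) ℚ)) : Prop :=
  ∃ Δ₀ : Subgroup Γ, Δ₀.FiniteIndex ∧ ∀ Δ ≤ Δ₀, Δ.FiniteIndex → ∀ x : End K M, IsUnit x →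
    (x ∈ zariskiClosure b (R '' Δ) ↔ x ∈ zerosOf b P)

/-- The equations of the pairs `(x, y)` such that `y` satisfies `P` and `x` multiplies the form with
matrix `q` by `c(y)`. -/
noncomputable def fibreForm {ι κ : Type} [Fintype ι] (q : ι → ι → ℚ) (c : MvPolynomial (κ × κ) ℚ)
    (P : Set (MvPolynomial (κ × κ) ℚ)) : Set (MvPolynomial ((ι ⊕ κ) × (ι ⊕ κ)) ℚ) :=
  {p | (∃ i k, p = MvPolynomial.X (Sum.inl i, Sum.inr k)) ∨
    (∃ i k, p = MvPolynomial.X (Sum.inr k, Sum.inl i)) ∨
    (∃ p' ∈ P, p = MvPolynomial.rename (fun kl => (Sum.inr kl.1, Sum.inr kl.2)) p') ∨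
    ∃ i j, p = (∑ k, ∑ m, MvPolynomial.C (q k m) * MvPolynomial.X (Sum.inl k, Sum.inl i) *
      MvPolynomial.X (Sum.inl m, Sum.inl j)) -
      MvPolynomial.rename (fun kl => (Sum.inr kl.1, Sum.inr kl.2)) c * MvPolynomial.C (q i j)}

end defs

section one

variable {K : Type} [Field K] [CharZero K] {M : Type} [AddCommGroup M]
  [Module K M] {N : Type} [AddCommGroup N] [Module K N] {ι : Type} [Fintype ι]
  {κ : Type} (b : Basis ι K M) (bN : Basis κ K N)

theorem ev_XX (z : End K (M × N)) (ij : (ι ⊕ κ) × (ι ⊕ κ)) :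
    ev (b.prod bN) (MvPolynomial.map (algebraMap ℚ K) (MvPolynomial.X ij)) z =
      (b.prod bN).repr (z (b.prod bN ij.2)) ij.1 := by
  rw [MvPolynomial.map_X, ev, MvPolynomial.eval_X]

theorem prod_inl (i : ι) : b.prod bN (Sum.inl i) = (b i, 0) :=
  Prod.ext (by rw [Basis.prod_apply_inl_fst]) (by rw [Basis.prod_apply_inl_snd])

theorem prod_inr (k : κ) : b.prod bN (Sum.inr k) = (0, bN k) :=
  Prod.ext (by rw [Basis.prod_apply_inr_fst]) (by rw [Basis.prod_apply_inr_snd])

theorem ev_ren (x : End K M) (y : End K N) (p : MvPolynomial (κ × κ) ℚ) :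
    ev (b.prod bN) (MvPolynomial.map (algebraMap ℚ K)
      (MvPolynomial.rename (fun kl => (Sum.inr kl.1, Sum.inr kl.2)) p)) (x.prodMap y) =
      ev bN (MvPolynomial.map (algebraMap ℚ K) p) y := by
  rw [MvPolynomial.map_rename, ev, ev, MvPolynomial.eval_rename]
  congr 2
  funext kl
  rw [Function.comp_apply, prod_inr, LinearMap.prodMap_apply, Basis.prod_repr_inr]

theorem entry_ll (x : End K M) (y : End K N) (i j : ι) :
    (b.prod bN).repr ((x.prodMap y) (b.prod bN (Sum.inl j))) (Sum.inl i) =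
      b.repr (x (b j)) i := by
  rw [prod_inl, LinearMap.prodMap_apply, Basis.prod_repr_inl]

variable {b} {ω : M →ₗ[K] M →ₗ[K] K} {q : ι → ι → ℚ}
  (hq : ∀ i j, ω (b i) (b j) = algebraMap ℚ K (q i j))

include hq in
theorem ev_form (x : End K M) (y : End K N) (c : MvPolynomial (κ × κ) ℚ) (i j : ι) :
    ev (b.prod bN) (MvPolynomial.map (algebraMap ℚ K)
      ((∑ k, ∑ m, MvPolynomial.C (q k m) * MvPolynomial.X (Sum.inl k, Sum.inl i) *
      MvPolynomial.X (Sum.inl m, Sum.inl j)) -
      MvPolynomial.rename (fun kl => (Sum.inr kl.1, Sum.inr kl.2)) c * MvPolynomial.C (q i j)))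
      (x.prodMap y) = ω (x (b i)) (x (b j)) -
        ev bN (MvPolynomial.map (algebraMap ℚ K) c) y * ω (b i) (b j) := by
  have h1 : ω (x (b i)) (x (b j)) = ∑ k, ∑ m, algebraMap ℚ K (q k m) * b.repr (x (b i)) k *
      b.repr (x (b j)) m := by
    conv_lhs => rw [← b.sum_repr (x (b i))]
    rw [map_sum, LinearMap.sum_apply]
    refine Finset.sum_congr rfl fun k _ => ?_
    rw [map_smul, LinearMap.smul_apply]
    conv_lhs => rw [← b.sum_repr (x (b j))]
    rw [map_sum, Finset.smul_sum]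
    refine Finset.sum_congr rfl fun m _ => ?_
    rw [map_smul, hq, smul_eq_mul, smul_eq_mul]
    ring
  have h2 := ev_ren b bN x y c
  rw [ev] at h2
  rw [h1, ev, map_sub, map_sub, map_mul, map_mul, h2, MvPolynomial.map_C, MvPolynomial.eval_C, hq,
    map_sum, map_sum]
  congr 1
  refine Finset.sum_congr rfl fun k _ => ?_
  rw [map_sum, map_sum]
  refine Finset.sum_congr rfl fun m _ => ?_
  rw [map_mul, map_mul, map_mul, map_mul, MvPolynomial.map_C, MvPolynomial.map_X,
    MvPolynomial.map_X, MvPolynomial.eval_C, MvPolynomial.eval_X, MvPolynomial.eval_X, entry_ll,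
    entry_ll]

include hq in
/-- The zeros of the equations. -/
theorem mem_fibre {z : End K (M × N)} {c : MvPolynomial (κ × κ) ℚ}
    {P : Set (MvPolynomial (κ × κ) ℚ)} :
    z ∈ zerosOf (b.prod bN) (fibreForm q c P) ↔ ∃ (x : End K M) (y : End K N),
      z = x.prodMap y ∧ y ∈ zerosOf bN P ∧
      ∀ u v, ω (x u) (x v) = ev bN (MvPolynomial.map (algebraMap ℚ K) c) y * ω u v := by
  constructor
  · intro hz
    have h1 : ∀ i, (z (b i, 0)).2 = 0 := by
      intro i
      apply bN.repr.injective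
      rw [map_zero]
      ext k
      have h2 := hz _ (Or.inr (Or.inl ⟨i, k, rfl⟩))
      rw [ev_XX, prod_inl, Basis.prod_repr_inr] at h2
      rw [h2]
      rfl
    have h2 : ∀ k, (z (0, bN k)).1 = 0 := by
      intro k
      apply b.repr.injective
      rw [map_zero]
      ext i
      have h2 := hz _ (Or.inl ⟨i, k, rfl⟩)
      rw [ev_XX, prod_inr, Basis.prod_repr_inl] at h2
      rw [h2]
      rfl
    let x : End K M := (LinearMap.fst K M N) ∘ₗ z ∘ₗ (LinearMap.inl K M N)
    let y : End K N := (LinearMap.snd K M N) ∘ₗ z ∘ₗ (LinearMap.inr K M N)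
    have hzxy : z = x.prodMap y := by
      refine (b.prod bN).ext fun j => ?_
      rcases j with i | k
      · rw [prod_inl, LinearMap.prodMap_apply, map_zero]
        exact Prod.ext rfl (h1 i)
      · rw [prod_inr, LinearMap.prodMap_apply, map_zero]
        exact Prod.ext (h2 k) rfl
    refine ⟨x, y, hzxy, fun p hp => ?_, ?_⟩
    · have h3 := hz _ (Or.inr (Or.inr (Or.inl ⟨p, hp, rfl⟩)))
      rwa [hzxy, ev_ren] at h3
    · have h3 : ω.compl₁₂ x x = ev bN (MvPolynomial.map (algebraMap ℚ K) c) y • ω := by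
        refine b.ext fun i => b.ext fun j => ?_
        have h4 := hz _ (Or.inr (Or.inr (Or.inr ⟨i, j, rfl⟩)))
        rw [hzxy, ev_form bN hq, sub_eq_zero] at h4
        rw [LinearMap.compl₁₂_apply, LinearMap.smul_apply, LinearMap.smul_apply, smul_eq_mul]
        exact h4
      intro u v
      have h4 := LinearMap.congr_fun₂ h3 u v
      rwa [LinearMap.compl₁₂_apply, LinearMap.smul_apply, LinearMap.smul_apply, smul_eq_mul] at h4
  · rintro ⟨x, y, rfl, hy, hx⟩ p hp
    rcases hp with ⟨i, k, rfl⟩ | ⟨i, k, rfl⟩ | ⟨p', hp', rfl⟩ | ⟨i, j, rfl⟩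
    · rw [ev_XX, prod_inr, LinearMap.prodMap_apply, map_zero, Basis.prod_repr_inl, map_zero]
      rfl
    · rw [ev_XX, prod_inl, LinearMap.prodMap_apply, map_zero, Basis.prod_repr_inr, map_zero]
      rfl
    · rw [ev_ren]
      exact hy p' hp'
    · rw [ev_form bN hq, hx, sub_self]

end one

variable {K : Type} [Field K] [CharZero K] [IsAlgClosed K] {M : Type} [AddCommGroup M]
  [Module K M] [FiniteDimensional K M] {N : Type} [AddCommGroup N] [Module K N]
  [FiniteDimensional K N] {ι κ : Type} [Fintype ι] [Fintype κ] (b : Basis ι K M)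
  (bN : Basis κ K N) {Γ : Type} [Group Γ]
  (R : Representation K Γ M) (S : Representation K Γ N) (χ : Γ →* K) (ω : M →ₗ[K] M →ₗ[K] K)

/-- **The rational form of the product.** -/
theorem form_prod (halt : ∀ v, ω v v = 0) (hnd : ∀ u, (∀ v, ω u v = 0) → u = 0)
    (hω : ∀ g u v, ω (R g u) (R g v) = χ g * ω u v) (hSI : StronglyIrr R)
    (hγ : ∃ γ : Γ, χ γ = 1 ∧ S γ = 1 ∧ GoodElement R γ)
    (q : ι → ι → ℚ) (hq : ∀ i j, ω (b i) (b j) = algebraMap ℚ K (q i j))
    (c : MvPolynomial (κ × κ) ℚ)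
    (hc : ∀ g, ev bN (MvPolynomial.map (algebraMap ℚ K) c) (S g) = χ g)
    (P : Set (MvPolynomial (κ × κ) ℚ)) (hP : IsRationalForm bN S P) :
    IsRationalForm (b.prod bN) (dsum R S) (fibreForm q c P) := by
  obtain ⟨Δ₀, hΔ₀, h0⟩ := hP
  obtain ⟨γ, hχ, hS, hgood⟩ := hγ
  have hall := good_all (b.prod bN) halt hnd hω hSI hχ hS hgood
  have hω0 : ∃ u v, ω u v ≠ 0 := by
    by_contra hcon
    push Not at hcon
    have h1 : ∀ u : M, u = 0 := fun u => hnd u (hcon u)
    have h2 : R γ = 1 := by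
      apply LinearMap.ext
      intro u
      rw [h1 (R γ u), h1 ((1 : M →ₗ[K] M) u)]
    rcases hgood with ⟨h3, -⟩ | ⟨-, F, u, v, l', m, hu0, -⟩
    · exact h3 h2
    · exact hu0 (h1 u)
  refine ⟨Δ₀, hΔ₀, fun Δ hΔ hfi z hz => ?_⟩
  have hunit : ∀ g, IsUnit (S g) := by
    intro g
    refine ⟨⟨S g, S g⁻¹, ?_, ?_⟩, rfl⟩
    · rw [← map_mul, mul_inv_cancel, map_one]
    · rw [← map_mul, inv_mul_cancel, map_one]
  constructor
  · intro h p hp
    refine h _ ?_
    rintro _ ⟨g, hg, rfl⟩
    have h1 : dsum R S g ∈ zerosOf (b.prod bN) (fibreForm q c P) := by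
      rw [mem_fibre bN hq]
      refine ⟨R g, S g, rfl, ?_, fun u v => ?_⟩
      · exact (h0 Δ hΔ hfi _ (hunit g)).1 (subset_zc _ _ ⟨g, hg, rfl⟩)
      · rw [hc, hω]
    exact h1 p hp
  · intro h
    rw [mem_fibre bN hq] at h
    obtain ⟨x, y, rfl, hy, hx⟩ := h
    have hinj : Function.Injective (x.prodMap y) := by
      obtain ⟨e, he⟩ := hz
      intro a a' haa
      have h1 : ∀ a, (e⁻¹.1) ((x.prodMap y) a) = a := by
        intro a
        rw [← he, ← Module.End.mul_apply, ← Units.val_mul, inv_mul_cancel, Units.val_one,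
          Module.End.one_apply]
      rw [← h1 a, haa, h1]
    have hyu : IsUnit y := by
      rw [LinearMap.isUnit_iff_ker_eq_bot, LinearMap.ker_eq_bot]
      intro a a' haa
      have h1 := @hinj (0, a) (0, a') (by
        rw [LinearMap.prodMap_apply, LinearMap.prodMap_apply, haa])
      exact congrArg Prod.snd h1
    have hxs : Function.Surjective x := by
      apply LinearMap.surjective_of_injective
      intro a a' haa
      have h1 := @hinj (a, 0) (a', 0) (by
        rw [LinearMap.prodMap_apply, LinearMap.prodMap_apply, haa])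
      exact congrArg Prod.fst h1
    have hc0 : ev bN (MvPolynomial.map (algebraMap ℚ K) c) y ≠ 0 := by
      intro h1
      obtain ⟨u, v, huv⟩ := hω0
      obtain ⟨u', rfl⟩ := hxs u
      obtain ⟨v', rfl⟩ := hxs v
      apply huv
      rw [hx, h1, zero_mul]
    exact all_fib (b.prod bN) halt hnd hω hall hfi bN _ (fun g _ => hc g)
      ((h0 Δ hΔ hfi _ hyu).2 hy) hc0 hx

end Pool.Agent.TH118.ZC
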